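import Pool.Agent.Q236.CR.Stm2
import Pool.Agent.H300R2.FB.CoreF

/-!
# Project CR, job ENG: the second moment over a box of polynomials
-/

set_option autoImplicit false

namespace Pool.Agent.Q111.CR

open Finset Filter
open Pool.Agent.Q236.CR
open Pool.Agent.H469R2.NK (e norm_e e_add conj_e e_zero)
open Pool.Agent.H300R2.BH (fz chf ch_inv ch_parseval)
open Pool.Agent.H300R2.FB (bx tR card_bx minorF)
open Pool.Agent.H442R2.EHI (Maj sum_e_range e_add_int norm_add_sq_le evt_log_pow evt_log_ge)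

/-- Parseval for finite exponential sums -/
theorem pars (N : ℕ) (hN : 1 ≤ N) (S : Finset ℕ) (hS : S ⊆ range N) (c : ℕ → ℂ) :
    ∑ v ∈ range N, ‖∑ h ∈ S, c h * e (-((v : ℝ) * h / N))‖ ^ 2 = N * ∑ h ∈ S, ‖c h‖ ^ 2 := by
  have key : ((∑ v ∈ range N, ‖∑ h ∈ S, c h * e (-((v : ℝ) * h / N))‖ ^ 2 : ℝ) : ℂ) =
      ((N * ∑ h ∈ S, ‖c h‖ ^ 2 : ℝ) : ℂ) := by
    have e0 : ∀ v ∈ range N, ((‖∑ h ∈ S, c h * e (-((v : ℝ) * h / N))‖ : ℂ) ^ 2) =
        ∑ h ∈ S, ∑ h' ∈ S, (c h * (starRingEnd ℂ) (c h')) * e ((((h' : ℤ) - h : ℤ) : ℝ) * v / N) := by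
      intro v _
      have e1 : ((‖∑ h ∈ S, c h * e (-((v : ℝ) * h / N))‖ : ℂ) ^ 2) =
          (∑ h ∈ S, c h * e (-((v : ℝ) * h / N))) * (starRingEnd ℂ) (∑ h ∈ S, c h * e (-((v : ℝ) * h / N))) := by
        rw [Complex.mul_conj, Complex.normSq_eq_norm_sq]; push_cast; rfl
      rw [e1, map_sum, sum_mul_sum]
      refine sum_congr rfl fun h _ => sum_congr rfl fun h' _ => ?_
      rw [map_mul, conj_e]
      have e2 : e ((((h' : ℤ) - h : ℤ) : ℝ) * v / N) = e (-((v : ℝ) * h / N)) * e (- -((v : ℝ) * h' / N)) := by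
        rw [← e_add]; congr 1; push_cast; ring
      rw [e2]; ring
    push_cast
    rw [sum_congr rfl e0, sum_comm, mul_sum]
    refine sum_congr rfl fun h hh => ?_
    rw [sum_comm, sum_eq_single h]
    · rw [← mul_sum, sum_e_range N hN, if_pos (by simp)]
      have : c h * (starRingEnd ℂ) (c h) = (‖c h‖ : ℂ) ^ 2 := by
        rw [Complex.mul_conj, Complex.normSq_eq_norm_sq]; push_cast; rfl
      rw [this]; ring
    · intro h' hh' hne
      rw [← mul_sum, sum_e_range N hN, if_neg, mul_zero]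
      have h1 := mem_range.1 (hS hh)
      have h2 := mem_range.1 (hS hh')
      rintro ⟨t, ht⟩
      rcases lt_trichotomy t 0 with h | h | h
      · have : (N : ℤ) * t ≤ -N := by nlinarith
        omega
      · rw [h, mul_zero] at ht
        omega
      · have : (N : ℤ) ≤ N * t := by nlinarith
        omega
    · intro h0; exact absurd hh h0
  exact_mod_cast key

/-- all values up to `15 x` -/
theorem pars2 (x : ℕ) (S : Finset ℕ) (hS : S ⊆ range (16 * x + 1)) (c : ℕ → ℂ) :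
    ∑ v ∈ Icc (-(15 * x : ℤ)) (15 * x), ‖∑ h ∈ S, c h * e (-((v : ℝ) * h / ((16 * x + 1 : ℕ) : ℝ)))‖ ^ 2 ≤
      2 * (((16 * x + 1 : ℕ) : ℝ) * ∑ h ∈ S, ‖c h‖ ^ 2) := by
  obtain ⟨N, hN⟩ : ∃ N, N = 16 * x + 1 := ⟨_, rfl⟩
  rw [← hN] at hS ⊢
  have hN1 : 1 ≤ N := by omega
  have hN0 : (N : ℝ) ≠ 0 := by positivity
  set P : ℤ → ℝ := fun v => ‖∑ h ∈ S, c h * e (-((v : ℝ) * h / (N : ℝ)))‖ ^ 2 with hP
  have hper : ∀ v : ℤ, P (v + N) = P v := by
    intro v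
    simp only [hP]
    congr 2
    refine sum_congr rfl fun h _ => ?_
    congr 1
    have e1 : -(((v + N : ℤ) : ℝ) * h / (N : ℝ)) = -((v : ℝ) * h / N) + ((-(h : ℤ) : ℤ) : ℝ) := by
      push_cast
      field_simp
      ring
    rw [e1, e_add_int]
  have h1 : Icc (-(15 * x : ℤ)) (15 * x) ⊆ Ico (-(N : ℤ)) 0 ∪ Ico 0 (N : ℤ) := by
    intro v hv
    rw [mem_Icc] at hv
    rw [mem_union, mem_Ico, mem_Ico]
    omega
  have hdisj : Disjoint (Ico (-(N : ℤ)) 0) (Ico 0 (N : ℤ)) := by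
    rw [Finset.disjoint_left]
    intro v h1 h2
    rw [mem_Ico] at h1 h2
    omega
  have h2 : ∑ v ∈ Icc (-(15 * x : ℤ)) (15 * x), P v ≤ ∑ v ∈ Ico (-(N : ℤ)) 0 ∪ Ico 0 (N : ℤ), P v :=
    sum_le_sum_of_subset_of_nonneg h1 fun v _ _ => by simp only [hP]; positivity
  rw [sum_union hdisj] at h2
  have h3 : ∑ v ∈ Ico 0 (N : ℤ), P v = ∑ v ∈ range N, P v := by
    symm
    refine sum_bij (fun (v : ℕ) _ => (v : ℤ)) ?_ ?_ ?_ ?_
    · intro v hv
      rw [mem_range] at hv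
      rw [mem_Ico]; omega
    · intro v _ v' _ h; exact_mod_cast h
    · intro v hv
      rw [mem_Ico] at hv
      exact ⟨v.toNat, by rw [mem_range]; omega, by omega⟩
    · intro v _; rfl
  have h4 : ∑ v ∈ Ico (-(N : ℤ)) 0, P v = ∑ v ∈ Ico 0 (N : ℤ), P v := by
    refine sum_bij (fun v _ => v + N) ?_ ?_ ?_ ?_
    · intro v hv
      rw [mem_Ico] at hv ⊢; omega
    · intro v _ v' _ h; simpa using h
    · intro v hv
      rw [mem_Ico] at hv
      exact ⟨v - N, by rw [mem_Ico]; omega, by ring⟩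
    · intro v _; exact (hper v).symm
  have h5 := pars N hN1 S hS c
  rw [h4, h3] at h2
  have h6 : ∑ v ∈ range N, P v = N * ∑ h ∈ S, ‖c h‖ ^ 2 := by
    rw [← h5]
    refine sum_congr rfl fun v _ => ?_
    simp only [hP, Int.cast_natCast]
  rw [h6] at h2
  linarith

/-- fibres -/
theorem fib {τ : Type*} [DecidableEq τ] (S : Finset τ) (φ : τ → ℤ) (I : Finset ℤ) (Φ : ℤ → ℝ) (M : ℝ)
    (hΦ : ∀ v, 0 ≤ Φ v) (hI : ∀ t ∈ S, φ t ∈ I) (hM : ∀ v, (((S.filter (fun t => φ t = v)).card : ℕ) : ℝ) ≤ M) :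
    ∑ t ∈ S, Φ (φ t) ≤ M * ∑ v ∈ I, Φ v := by
  rw [← Finset.sum_fiberwise_of_maps_to (g := φ) hI, mul_sum]
  refine sum_le_sum fun v _ => ?_
  have e1 : ∑ t ∈ S with φ t = v, Φ (φ t) = ((S.filter (fun t => φ t = v)).card : ℝ) * Φ v := by
    rw [sum_congr rfl (fun t ht => by rw [(mem_filter.1 ht).2] : ∀ t ∈ S.filter (fun t => φ t = v), Φ (φ t) = Φ v),
      sum_const, nsmul_eq_mul]
  rw [e1]
  exact mul_le_mul_of_nonneg_right (hM v) (hΦ v)

theorem chf_cut (f : ℕ → ℂ) (x N : ℕ) (h : ℤ) : chf (cut x f) x N h = chf f x N h := by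
  unfold chf
  congr 1
  refine sum_congr rfl fun n hn => ?_
  rw [mem_Icc] at hn
  unfold cut
  rw [if_pos hn.2]

theorem num_third {x A K L : ℝ} {j E0 E6 E C B : ℕ} (hj : 1 ≤ j) (hx : 0 ≤ x) (hL : 4096 ≤ L)
    (hB : E0 + E6 + 3 * E + 3 * C + 1 ≤ B) (hK1 : 1 ≤ K) (hA : K * L ^ B ≤ A)
    (hxA : x ≤ A * K ^ j * L ^ (E0 + E6)) :
    x ^ (1 / 3 : ℝ) * (16 * L ^ (E + C)) ≤ A * K ^ (j - 1) := by
  have hL0 : 0 < L := by linarith
  have hL1 : 1 ≤ L := by linarith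
  have hK0 : 0 < K := by linarith
  have hA0 : 0 < A := lt_of_lt_of_le (by positivity) hA
  set W := A * K ^ (j - 1) with hW
  have hW0 : 0 < W := by positivity
  have hKj : K ^ j = K ^ (j - 1) * K := by rw [← pow_succ]; congr 1; omega
  have h1 : x ≤ W * K * L ^ (E0 + E6) := by
    refine hxA.trans (le_of_eq ?_)
    rw [hKj, hW]; ring
  have h2 : K * L ^ B ≤ W := by
    have : (1 : ℝ) ≤ K ^ (j - 1) := one_le_pow₀ hK1
    calc K * L ^ B ≤ A := hA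
      _ = A * 1 := (mul_one A).symm
      _ ≤ W := mul_le_mul_of_nonneg_left this hA0.le
  have h3 : K * L ^ (E0 + E6) * (16 * L ^ (E + C)) ^ 3 ≤ W ^ 2 := by
    have e1 : K * L ^ (E0 + E6) * (16 * L ^ (E + C)) ^ 3 = K * (4096 * L ^ (E0 + E6 + 3 * E + 3 * C)) := by ring
    have e2 : 4096 * L ^ (E0 + E6 + 3 * E + 3 * C) ≤ L ^ (E0 + E6 + 3 * E + 3 * C + 1) := by
      rw [pow_succ, mul_comm]
      exact mul_le_mul_of_nonneg_left hL (by positivity)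
    have e3 : L ^ (E0 + E6 + 3 * E + 3 * C + 1) ≤ L ^ B := pow_le_pow_right₀ hL1 hB
    have e4 : K * L ^ B ≤ K * L ^ B * (K * L ^ B) := by
      have : 1 ≤ K * L ^ B := one_le_mul_of_one_le_of_one_le hK1 (one_le_pow₀ hL1)
      nlinarith
    have e5 : K * L ^ B * (K * L ^ B) ≤ W * W := mul_le_mul h2 h2 (by positivity) hW0.le
    have e6 : K * (4096 * L ^ (E0 + E6 + 3 * E + 3 * C)) ≤ K * L ^ B :=
      mul_le_mul_of_nonneg_left (e2.trans e3) hK0.le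
    rw [e1]
    nlinarith
  have h4 : x * (16 * L ^ (E + C)) ^ 3 ≤ W ^ 3 := by
    calc x * (16 * L ^ (E + C)) ^ 3 ≤ W * K * L ^ (E0 + E6) * (16 * L ^ (E + C)) ^ 3 :=
          mul_le_mul_of_nonneg_right h1 (by positivity)
      _ = W * (K * L ^ (E0 + E6) * (16 * L ^ (E + C)) ^ 3) := by ring
      _ ≤ W * W ^ 2 := mul_le_mul_of_nonneg_left h3 hW0.le
      _ = W ^ 3 := by ring
  have h5 : (x ^ (1 / 3 : ℝ) * (16 * L ^ (E + C))) ^ 3 ≤ W ^ 3 := by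
    rw [mul_pow, ← Real.rpow_natCast (x ^ (1 / 3 : ℝ)), ← Real.rpow_mul hx]
    norm_num
    simpa using h4
  exact le_of_pow_le_pow_left₀ (by norm_num) hW0.le h5

theorem alg_major {bc A D K K1 L x N Q S G : ℝ} {j E0 E2 E U : ℕ} (hbc : 0 ≤ bc) (hA : 0 ≤ A) (hD : 0 ≤ D)
    (hK : 0 ≤ K) (hK1 : 0 < K1) (hL : 136 * 2 ^ j ≤ L) (hN : N ≤ 17 * x) (hN0 : 0 ≤ N)
    (hx : x ≤ D * K ^ j * L ^ E0) (hKK : K ≤ K1 * L ^ E2) (hQ : 0 ≤ Q) (hQL : Q ≤ L ^ E)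
    (hS0 : 0 ≤ S) (hS : S ≤ Q ^ 2 / L ^ (U + E0 + j * E2 + 2 * E + 3))
    (hG : G ≤ K * (K * (2 ^ j * A * bc / K1 ^ j * (2 * (N * S))))) :
    G ≤ bc * (A * D * K ^ 2 / (4 * L ^ U)) := by
  have h2j : (1 : ℝ) ≤ 2 ^ j := one_le_pow₀ (by norm_num)
  have hL136 : 136 ≤ L := by nlinarith
  have hL0 : 0 < L := by linarith
  have hL1 : 1 ≤ L := by linarith
  have hKj : K ^ j ≤ K1 ^ j * L ^ (j * E2) := by
    calc K ^ j ≤ (K1 * L ^ E2) ^ j := pow_le_pow_left₀ hK hKK j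
      _ = _ := by rw [mul_pow, ← pow_mul, mul_comm E2 j]
  have hQ2 : Q ^ 2 ≤ L ^ (2 * E) := by
    calc Q ^ 2 ≤ (L ^ E) ^ 2 := pow_le_pow_left₀ hQ hQL 2
      _ = _ := by rw [← pow_mul, mul_comm E 2]
  have hS' : S ≤ 1 / L ^ (U + E0 + j * E2 + 3) := by
    refine hS.trans ?_
    rw [div_le_div_iff₀ (by positivity) (by positivity)]
    calc Q ^ 2 * L ^ (U + E0 + j * E2 + 3) ≤ L ^ (2 * E) * L ^ (U + E0 + j * E2 + 3) :=
          mul_le_mul_of_nonneg_right hQ2 (by positivity)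
      _ = 1 * L ^ (U + E0 + j * E2 + 2 * E + 3) := by rw [one_mul, ← pow_add]; congr 1; ring
  have hN2 : N ≤ 17 * (D * (K1 ^ j * L ^ (j * E2)) * L ^ E0) := by
    have : D * K ^ j * L ^ E0 ≤ D * (K1 ^ j * L ^ (j * E2)) * L ^ E0 := by gcongr
    linarith
  have hNS : N * S ≤ 17 * (D * (K1 ^ j * L ^ (j * E2)) * L ^ E0) * (1 / L ^ (U + E0 + j * E2 + 3)) :=
    mul_le_mul hN2 hS' hS0 (by positivity)
  have e1 : 17 * (D * (K1 ^ j * L ^ (j * E2)) * L ^ E0) * (1 / L ^ (U + E0 + j * E2 + 3)) =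
      17 * (D * K1 ^ j / L ^ (U + 3)) := by
    have : L ^ (U + E0 + j * E2 + 3) = L ^ (j * E2) * L ^ E0 * L ^ (U + 3) := by
      rw [← pow_add, ← pow_add]; congr 1; ring
    rw [this]
    field_simp
  rw [e1] at hNS
  refine hG.trans ?_
  calc K * (K * (2 ^ j * A * bc / K1 ^ j * (2 * (N * S))))
      ≤ K * (K * (2 ^ j * A * bc / K1 ^ j * (2 * (17 * (D * K1 ^ j / L ^ (U + 3)))))) := by gcongr
    _ = bc * (A * D * K ^ 2 / L ^ U) * (34 * 2 ^ j / L ^ 3) := by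
        rw [pow_add]
        field_simp
        ring
    _ ≤ bc * (A * D * K ^ 2 / L ^ U) * (1 / 4) := by
        refine mul_le_mul_of_nonneg_left ?_ (by positivity)
        rw [div_le_div_iff₀ (by positivity) (by norm_num)]
        have : L ≤ L ^ 3 := by
          have := pow_le_pow_right₀ hL1 (show 1 ≤ 3 by norm_num)
          simpa using this
        linarith
    _ = _ := by field_simp

/-- **ENG** -/
theorem eng : S_MJE → S_MUL → S_ENG := by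
  classical
  intro hMJ hMU j hj E0 E2 E6 U
  obtain ⟨E, Lc, hcount⟩ := Pool.Agent.H993R2.FB.inv_full j hj (U + E0 + j * E2 + 4) E2 E6
  refine ⟨E, U + E0 + j * E2 + 2 * E + 3, fun C => ?_⟩
  obtain ⟨B, hB⟩ : ∃ B, B = E0 + E6 + 3 * E + 3 * C + 2 * E + 10 := ⟨_, rfl⟩
  have hev : ∀ᶠ x : ℕ in atTop, 3 ≤ x ∧ 4096 ≤ Real.log x ∧ 400 * 10 ^ (j + 1) ≤ Real.log x ∧
      Lc ≤ Real.log x ∧ 136 * 2 ^ j ≤ Real.log x := by
    filter_upwards [eventually_ge_atTop 3, evt_log_ge 4096, evt_log_ge (400 * 10 ^ (j + 1)), evt_log_ge Lc,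
      evt_log_ge (136 * 2 ^ j)] with x h1 h2 h3 h4 h5
    exact ⟨h1, h2, h3, h4, h5⟩
  obtain ⟨x0, hx0⟩ := eventually_atTop.mp hev
  refine ⟨B, x0, fun x hx f hwin hfL D K K1 A a0 G H σ w hw hσ hDK hxDK hK hK1 hKK hKA hAH hAD hDA hAx hHx
    hrange => ?_⟩
  obtain ⟨hx3, hL4096, hL400, hLLc, hL136⟩ := hx0 x hx
  set L := Real.log x with hLdef
  have h10 : (1 : ℝ) ≤ 10 ^ (j + 1) := one_le_pow₀ (by norm_num)
  have hL0 : 0 < L := by linarith
  have hL1 : 1 ≤ L := by linarith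
  have hLp : ∀ n : ℕ, 1 ≤ L ^ n := fun n => one_le_pow₀ hL1
  have hLmono : ∀ m n : ℕ, m ≤ n → L ^ m ≤ L ^ n := fun m n h => pow_le_pow_right₀ hL1 h
  have hxr : (3 : ℝ) ≤ x := by exact_mod_cast hx3
  have hx0' : (0 : ℝ) < x := by linarith
  have hK1r : (1 : ℝ) ≤ K := (hLp B).trans hK
  have hK0 : (0 : ℝ) < K := by linarith
  have hKn : 1 ≤ K := by exact_mod_cast hK1r
  have hKj : (0 : ℝ) < (K : ℝ) ^ j := by positivity
  have hK1pos : 1 ≤ K1 := by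
    rcases Nat.eq_zero_or_pos K1 with h | h
    · rw [h] at hKK
      simp at hKK
      exfalso
      omega
    · exact h
  have hK1p : (0 : ℝ) < K1 := by exact_mod_cast hK1pos
  have hKLA : (K : ℝ) ≤ A := by
    have : (K : ℝ) * 1 ≤ K * L ^ B := mul_le_mul_of_nonneg_left (hLp B) hK0.le
    linarith
  have hA0 : (0 : ℝ) < A := by linarith
  have hA1 : 1 ≤ A := by exact_mod_cast hA0
  have hD0 : (0 : ℝ) < D := by
    by_contra hneg
    push Not at hneg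
    have h1 : (D : ℝ) * L ^ E6 ≤ 0 := mul_nonpos_of_nonpos_of_nonneg hneg (by positivity)
    linarith
  have hD1 : 1 ≤ D := by exact_mod_cast hD0
  have hDK' : 2 * (D : ℝ) * (K : ℝ) ^ j ≤ x := by exact_mod_cast hDK
  have hDx : 2 * D ≤ x := by
    have h1 : 1 ≤ K ^ j := Nat.one_le_pow _ _ hKn
    calc 2 * D = 2 * D * 1 := (mul_one _).symm
      _ ≤ 2 * D * K ^ j := Nat.mul_le_mul_left _ h1
      _ ≤ x := hDK
  have h4K : 4 * K ≤ A := by
    have : (4 : ℝ) * K ≤ A := by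
      calc (4 : ℝ) * K = K * 4 := by ring
        _ ≤ K * L ^ B := by
          gcongr
          calc (4 : ℝ) ≤ L := by linarith
            _ = L ^ 1 := (pow_one L).symm
            _ ≤ L ^ B := hLmono _ _ (by omega)
        _ ≤ A := hKA
    exact_mod_cast this
  have hKA' : K ≤ A := by omega
  have hKjs : (K : ℝ) ^ j = (K : ℝ) ^ (j - 1) * K := by
    rw [← pow_succ]; congr 1; omega
  have hKj1 : (1 : ℝ) ≤ (K : ℝ) ^ (j - 1) := one_le_pow₀ hK1r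
  -- the parameters
  obtain ⟨N, hN⟩ : ∃ N, N = 16 * x + 1 := ⟨_, rfl⟩
  have hNr : (0 : ℝ) < N := by rw [hN]; positivity
  have hNx : (N : ℝ) = 16 * x + 1 := by rw [hN]; push_cast; ring
  obtain ⟨Q, hQ⟩ : ∃ Q, Q = ⌊L ^ E⌋₊ := ⟨_, rfl⟩
  have hQle : (Q : ℝ) ≤ L ^ E := by rw [hQ]; exact Nat.floor_le (by positivity)
  have hQ1 : 1 ≤ Q := by rw [hQ]; exact Nat.le_floor (by simpa using hLp E)
  obtain ⟨δ, hδ⟩ : ∃ δ : ℝ, δ = L ^ E / ((A : ℝ) * (K : ℝ) ^ (j - 1)) := ⟨_, rfl⟩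
  have hδ0 : 0 ≤ δ := by rw [hδ]; positivity
  obtain ⟨W, hW⟩ : ∃ W : ℝ, W = (A : ℝ) * (K : ℝ) ^ (j - 1) := ⟨_, rfl⟩
  have hW0 : 0 < W := by rw [hW]; positivity
  obtain ⟨Y, hY⟩ : ∃ Y, Y = ⌊W / (8 * L ^ E)⌋₊ := ⟨_, rfl⟩
  have hthird : (x : ℝ) ^ (1 / 3 : ℝ) * (16 * L ^ (E + C)) ≤ W := by
    rw [hW]
    refine num_third (E0 := E0) (E6 := E6) (B := B) hj hx0'.le hL4096 (by omega) hK1r hKA ?_
    calc (x : ℝ) ≤ D * (K : ℝ) ^ j * L ^ E0 := hxDK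
      _ ≤ (A * L ^ E6) * (K : ℝ) ^ j * L ^ E0 := by gcongr
      _ = A * (K : ℝ) ^ j * L ^ (E0 + E6) := by rw [pow_add]; ring
  have hx13 : (1 : ℝ) ≤ (x : ℝ) ^ (1 / 3 : ℝ) := Real.one_le_rpow (by linarith) (by norm_num)
  have hWbig : 16 * L ^ E ≤ W := by
    refine le_trans ?_ hthird
    calc 16 * L ^ E ≤ 16 * L ^ (E + C) := by gcongr; omega
      _ = 1 * (16 * L ^ (E + C)) := (one_mul _).symm
      _ ≤ _ := mul_le_mul_of_nonneg_right hx13 (by positivity)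
  have hYle : (Y : ℝ) ≤ W / (8 * L ^ E) := by rw [hY]; exact Nat.floor_le (by positivity)
  have hYge : W / (16 * L ^ E) ≤ Y := by
    have h1 : W / (8 * L ^ E) < Y + 1 := by rw [hY]; exact Nat.lt_floor_add_one _
    have h2 : 1 ≤ W / (16 * L ^ E) := by rw [le_div_iff₀ (by positivity)]; linarith
    have h3 : W / (8 * L ^ E) = 2 * (W / (16 * L ^ E)) := by field_simp; norm_num
    linarith
  have hY1 : 1 ≤ Y := by
    have h2 : 1 ≤ W / (16 * L ^ E) := by rw [le_div_iff₀ (by positivity)]; linarith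
    have : (1 : ℝ) ≤ Y := h2.trans hYge
    exact_mod_cast this
  have hYC : (x : ℝ) ^ (1 / 3 : ℝ) * L ^ C ≤ Y := by
    refine le_trans ?_ hYge
    rw [le_div_iff₀ (by positivity)]
    refine le_trans (le_of_eq ?_) hthird
    rw [pow_add]; ring
  have hYW : (Y : ℝ) ≤ W := by
    refine hYle.trans (div_le_self hW0.le ?_)
    have := hLp E
    linarith
  have hWD : W * L ^ C ≤ x := by
    have h1 : L ^ (E6 + C) ≤ K := (hLmono _ B (by omega)).trans hK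
    calc W * L ^ C = A * (K : ℝ) ^ (j - 1) * L ^ C := by rw [hW]
      _ ≤ (D * L ^ E6) * (K : ℝ) ^ (j - 1) * L ^ C := by gcongr
      _ = D * (K : ℝ) ^ (j - 1) * L ^ (E6 + C) := by rw [pow_add]; ring
      _ ≤ D * (K : ℝ) ^ (j - 1) * K := by gcongr
      _ = D * (K : ℝ) ^ j := by rw [hKjs]; ring
      _ ≤ x := by nlinarith
  have hYx2 : (Y : ℝ) * L ^ C ≤ x := (mul_le_mul_of_nonneg_right hYW (by positivity)).trans hWD
  have hYx : Y ≤ x := by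
    have : (Y : ℝ) ≤ x := by
      have h1 : (Y : ℝ) * 1 ≤ Y * L ^ C := mul_le_mul_of_nonneg_left (hLp C) (Nat.cast_nonneg _)
      linarith
    exact_mod_cast this
  have hYδ : 8 * (Y : ℝ) * δ ≤ 1 := by
    rw [hδ, ← hW, mul_div_assoc', div_le_one hW0]
    have h1 : (Y : ℝ) * (8 * L ^ E) ≤ W := by rwa [le_div_iff₀ (by positivity)] at hYle
    linarith
  have hQδ : (Q : ℝ) * δ < 1 := by
    rw [hδ, ← hW, mul_div_assoc', div_lt_one hW0]
    have h1 : L ^ E * L ^ E < A := by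
      have e1 : L ^ E * L ^ E = L ^ (2 * E) := by rw [← pow_add]; congr 1; ring
      have e2 : L ^ (2 * E) ≤ L ^ B := hLmono _ _ (by omega)
      have e3 : (2 : ℝ) * L ^ B ≤ K * L ^ B := by
        refine mul_le_mul_of_nonneg_right ?_ (by positivity)
        calc (2 : ℝ) ≤ L := by linarith
          _ = L ^ 1 := (pow_one L).symm
          _ ≤ L ^ B := hLmono _ _ (by omega)
          _ ≤ K := hK
      have e4 := hLp B
      rw [e1]
      linarith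
    have h2 : (A : ℝ) ≤ W := by
      rw [hW]
      have := mul_le_mul_of_nonneg_left hKj1 hA0.le
      linarith
    have h3 : (Q : ℝ) * L ^ E ≤ L ^ E * L ^ E := mul_le_mul_of_nonneg_right hQle (by positivity)
    linarith
  -- energies
  obtain ⟨S, hS⟩ : ∃ S, S = (range N).filter (fun h : ℕ => Maj Q δ ((h : ℝ) / (N : ℝ))) := ⟨_, rfl⟩
  have hSN : S ⊆ range N := by rw [hS]; exact filter_subset _ _
  have hmajE : ∑ h ∈ S, ‖chf f x N h‖ ^ 2 ≤ (Q : ℝ) ^ 2 / L ^ (U + E0 + j * E2 + 2 * E + 3) := by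
    have := hMJ f x E C (U + E0 + j * E2 + 2 * E + 3) Q Y δ hx3 hwin hQ1 hQle hY1 hYx hYC hYx2 hYδ hQδ
    rw [← hN] at this
    rw [hS]
    convert this
  have hpar := ch_parseval f x N (by omega)
  have hsq : ∑ n ∈ Icc 1 x, ‖f n‖ ^ 2 ≤ x * L ^ 2 := by
    have h1 : ∀ n ∈ Icc 1 x, ‖f n‖ ^ 2 ≤ L ^ 2 := by
      intro n hn
      exact pow_le_pow_left₀ (norm_nonneg _) (hfL n (mem_Icc.1 hn).2) 2
    refine (sum_le_sum h1).trans ?_
    rw [sum_const, Nat.card_Icc, nsmul_eq_mul, Nat.add_sub_cancel]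
  -- abbreviations
  obtain ⟨v, hv⟩ : ∃ v : (Fin (j - 1) → ℤ) → ℕ → ℕ → ℕ → ℤ, v = fun r a d k => G k + bval j r σ a d k := ⟨_, rfl⟩
  obtain ⟨P, hP⟩ : ∃ P : ℤ → ℂ, P = fun m : ℤ => ∑ h ∈ S, chf f x N h * e (-((m : ℝ) * h / (N : ℝ))) := ⟨_, rfl⟩
  obtain ⟨Mi, hMi⟩ : ∃ Mi : ℤ → ℂ, Mi = fun m : ℤ => ∑ h ∈ (range N).filter (fun h : ℕ => ¬ Maj Q δ ((h : ℝ) / (N : ℝ))),
    chf f x N h * e (-((m : ℝ) * h / (N : ℝ))) := ⟨_, rfl⟩
  have hdec : ∀ r ∈ bx j H, ∀ a ∈ Ioc a0 (a0 + A), ∀ d ∈ Ioc D (2 * D), ∀ k ∈ Ioc K1 K,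
      fz (cut x f) (v r a d k) = Mi (v r a d k) + P (v r a d k) := by
    intro r hr a ha d hd k hk
    have hb := abs_le.mp (hrange r hr a ha d hd k hk)
    have h1 := ch_inv (cut x f) x N (fun n hn => by unfold cut; rw [if_neg (by omega)]) (by omega) (v r a d k)
      (by rw [hv]; simp only; omega) (by rw [hv]; simp only; omega)
    rw [← h1, hMi, hP, hS]
    simp only [chf_cut]
    rw [add_comm]
    exact (sum_filter_add_sum_filter_not (range N) (fun h : ℕ => Maj Q δ ((h : ℝ) / (N : ℝ))) _).symm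
  -- minor arcs
  obtain ⟨Rc, hRc⟩ : ∃ Rc : ℝ, Rc = (K : ℝ) ^ 2 / L ^ (U + E0 + j * E2 + 4) := ⟨_, rfl⟩
  obtain ⟨c, hc⟩ : ∃ c : ℕ → ℂ, c = fun h : ℕ => if Maj Q δ ((h : ℝ) / (N : ℝ)) then 0 else chf f x N h := ⟨_, rfl⟩
  have hmin := minorF j hj N A D A K1 K H (Ioc K1 K) (fun k hk => by
      rw [mem_Ioc] at hk; rw [mem_Icc]; omega) a0 σ hσ c
    (fun k h => w k * e (-(((G k : ℤ) : ℝ) * h / N))) (fun k h => by rw [norm_mul, norm_e, mul_one]; exact hw k)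
    hA1 le_rfl hAH hD1 (by omega) (by omega) (fun i => by have := hHx i; omega) hK1pos h4K Rc (by
      intro h _ hch
      by_cases hm : Maj Q δ ((h : ℝ) / (N : ℝ))
      · simp [hc, hm] at hch
      · by_contra hlt
        push Not at hlt
        rw [hRc] at hlt
        obtain ⟨q, hq1, hqE, b, hb⟩ := hcount L hLLc K K1 A D ((hLmono _ _ (by omega)).trans hK) hK1 hKK
          (le_trans (by gcongr; omega) hKA) hAD ((h : ℝ) / N) hlt
        apply hm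
        refine ⟨q, ?_, b, ?_⟩
        · rw [mem_Icc]
          refine ⟨hq1, ?_⟩
          rw [hQ]
          exact Nat.le_floor hqE
        · rw [hδ]; exact hb)
  have h2 : ∀ (r : Fin (j - 1) → ℤ) (a d k : ℕ), ∑ h ∈ range N, c h *
      (w k * e (-(((G k : ℤ) : ℝ) * h / N))) *
      e (-(((a : ℝ) + tR j (fun i => (r i : ℝ)) k + σ * d * (k : ℝ) ^ j) * h / N)) =
      w k * Mi (v r a d k) := by
    intro r a d k
    rw [hMi]
    simp only
    rw [sum_filter, mul_sum]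
    refine sum_congr rfl fun h _ => ?_
    rw [hc]
    by_cases hm : Maj Q δ ((h : ℝ) / (N : ℝ))
    · simp [hm]
    · simp only [hm, if_false, not_false_eq_true, if_true]
      have e1 : ((v r a d k : ℤ) : ℝ) = (G k : ℝ) + ((a : ℝ) + tR j (fun i => (r i : ℝ)) k + σ * d * (k : ℝ) ^ j) := by
        rw [hv]
        simp only [bval, tR]
        push_cast
        ring
      have e2 : e (-(((v r a d k : ℤ) : ℝ) * h / N)) = e (-(((G k : ℤ) : ℝ) * h / N)) *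
          e (-(((a : ℝ) + tR j (fun i => (r i : ℝ)) k + σ * d * (k : ℝ) ^ j) * h / N)) := by
        rw [← e_add, e1]
        congr 1
        ring
      rw [e2]
      ring
  simp only [h2] at hmin
  have h3 : ∑ h ∈ range N, ‖c h‖ ^ 2 ≤ ∑ h ∈ range N, ‖chf f x N h‖ ^ 2 := by
    refine sum_le_sum fun h _ => ?_
    rw [hc]
    by_cases hm : Maj Q δ ((h : ℝ) / (N : ℝ))
    · simp only [hm, if_true]; simp
    · simp only [hm, if_false]; exact le_rfl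
  have hsum : ∑ h ∈ range N, ‖c h‖ ^ 2 ≤ x * L ^ 2 / N := by
    rw [le_div_iff₀ hNr, mul_comm]
    calc (N : ℝ) * ∑ h ∈ range N, ‖c h‖ ^ 2 ≤ N * ∑ h ∈ range N, ‖chf f x N h‖ ^ 2 := by gcongr
      _ = _ := hpar
      _ ≤ _ := hsq
  have hK1j : (K : ℝ) ^ j ≤ (K1 : ℝ) ^ j * L ^ (j * E2) := by
    calc (K : ℝ) ^ j ≤ (K1 * L ^ E2) ^ j := by gcongr
      _ = _ := by rw [mul_pow, ← pow_mul, mul_comm E2 j]
  have hcard := card_bx j H
  have hbx0 : (0 : ℝ) ≤ ((bx j H).card : ℝ) := Nat.cast_nonneg _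
  have hbound1 : (10 * (A : ℝ)) * ((10 * (D : ℝ)) * ∏ i, (10 * ((2 * H i + 1 : ℕ) : ℝ))) *
        ((Rc * (4 * N / (D * (K1 : ℝ) ^ j) + 1)) * ∑ h ∈ range N, ‖c h‖ ^ 2) ≤
      ((bx j H).card : ℝ) * (A * D * (K : ℝ) ^ 2 / (4 * L ^ U)) := by
    have hp : ∏ i : Fin (j - 1), (10 * ((2 * H i + 1 : ℕ) : ℝ)) = 10 ^ (j - 1) * ((bx j H).card : ℝ) := by
      rw [prod_mul_distrib, hcard, prod_const, card_univ, Fintype.card_fin]
    have h10j : (10 : ℝ) * 10 * 10 ^ (j - 1) = 10 ^ (j + 1) := by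
      have : (10 : ℝ) ^ (j + 1) = 10 ^ (j - 1) * 10 ^ 2 := by
        rw [← pow_add]; congr 1; omega
      rw [this]; ring
    have hDKN : (D : ℝ) * (K1 : ℝ) ^ j ≤ N := by
      have h5 : (K1 : ℝ) ^ j ≤ (K : ℝ) ^ j := by
        gcongr
      have h6 : (D : ℝ) * (K1 : ℝ) ^ j ≤ D * (K : ℝ) ^ j := by gcongr
      rw [hNx]
      nlinarith
    have hal := Pool.Agent.H300R2.FB.alg1 A D ((bx j H).card : ℝ) x L ((K : ℝ) ^ 2) ((K1 : ℝ) ^ j) ((K : ℝ) ^ j) N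
      (∑ h ∈ range N, ‖c h‖ ^ 2) (10 ^ (j + 1)) (U + E0) (j * E2) hA0.le hD0 hbx0 hx0'.le (by linarith)
      (by positivity) (by positivity) hKj hNr hsum hDKN hK1j (by positivity) (by nlinarith)
    rw [hp]
    have hlast : ((bx j H).card : ℝ) * (A * x * ((K : ℝ) ^ 2 / (K : ℝ) ^ j) / (4 * L ^ (U + E0))) ≤
        ((bx j H).card : ℝ) * (A * D * (K : ℝ) ^ 2 / (4 * L ^ U)) := by
      refine mul_le_mul_of_nonneg_left ?_ hbx0
      have e1 : (A : ℝ) * x * ((K : ℝ) ^ 2 / (K : ℝ) ^ j) / (4 * L ^ (U + E0)) ≤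
          A * (D * (K : ℝ) ^ j * L ^ E0) * ((K : ℝ) ^ 2 / (K : ℝ) ^ j) / (4 * L ^ (U + E0)) := by gcongr
      refine e1.trans (le_of_eq ?_)
      rw [pow_add]
      field_simp
    refine le_trans (le_trans (le_of_eq ?_) hal) hlast
    rw [← h10j, hRc]
    ring
  -- major arcs
  have hmajor : ∑ r ∈ bx j H, ∑ a ∈ Ioc a0 (a0 + A), ∑ d ∈ Ioc D (2 * D),
      ‖∑ k ∈ Ioc K1 K, w k * P (v r a d k)‖ ^ 2 ≤ ((bx j H).card : ℝ) * (A * D * (K : ℝ) ^ 2 / (4 * L ^ U)) := by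
    have hN17 : (N : ℝ) ≤ 17 * x := by rw [hNx]; linarith
    refine alg_major (j := j) (E0 := E0) (E2 := E2) (E := E) (Q := Q) (N := N) (x := x)
      (S := ∑ h ∈ S, ‖chf f x N h‖ ^ 2) hbx0 hA0.le hD0.le hK0.le hK1p hL136 hN17 hNr.le hxDK hKK
      (Nat.cast_nonneg _) hQle (by positivity) hmajE ?_
    have hpars := pars2 x S (by rw [← hN]; exact hSN) (fun h => chf f x N h)
    rw [← hN] at hpars
    have hfibk : ∀ k ∈ Ioc K1 K, ∑ r ∈ bx j H, ∑ a ∈ Ioc a0 (a0 + A), ∑ d ∈ Ioc D (2 * D), ‖P (v r a d k)‖ ^ 2 ≤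
        2 ^ j * A * ((bx j H).card : ℝ) / (K1 : ℝ) ^ j * (2 * (N * ∑ h ∈ S, ‖chf f x N h‖ ^ 2)) := by
      intro k hk
      have hk' := mem_Ioc.1 hk
      have e1 : ∑ r ∈ bx j H, ∑ a ∈ Ioc a0 (a0 + A), ∑ d ∈ Ioc D (2 * D), ‖P (v r a d k)‖ ^ 2 =
          ∑ t ∈ bx j H ×ˢ (Ioc a0 (a0 + A) ×ˢ Ioc D (2 * D)), ‖P (v t.1 t.2.1 t.2.2 k)‖ ^ 2 := by
        rw [sum_product]
        refine sum_congr rfl fun r _ => ?_
        rw [sum_product]
      rw [e1]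
      have hkr : (K1 : ℝ) ≤ k := by exact_mod_cast hk'.1.le
      have e2 := fib (bx j H ×ˢ (Ioc a0 (a0 + A) ×ˢ Ioc D (2 * D))) (fun t => v t.1 t.2.1 t.2.2 k)
        (Icc (-(15 * x : ℤ)) (15 * x)) (fun m => ‖P m‖ ^ 2) (2 ^ j * A * ((bx j H).card : ℝ) / (K1 : ℝ) ^ j)
        (fun m => by positivity) (fun t ht => by
          rw [mem_product, mem_product] at ht
          have := abs_le.mp (hrange t.1 ht.1 t.2.1 ht.2.1 t.2.2 ht.2.2 k hk)
          rw [hv, mem_Icc]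
          exact this) (fun m => by
          have := hMU j hj H A a0 D k σ (m - G k) (by omega) (by omega) (fun i => by have := hAH i; omega) hσ
          rw [← hcard] at this
          have e3 : (bx j H ×ˢ (Ioc a0 (a0 + A) ×ˢ Ioc D (2 * D))).filter (fun t => v t.1 t.2.1 t.2.2 k = m) =
              (bx j H ×ˢ (Ioc a0 (a0 + A) ×ˢ Ioc D (2 * D))).filter
                (fun t : (Fin (j - 1) → ℤ) × ℕ × ℕ => bval j t.1 σ t.2.1 t.2.2 k = m - G k) := by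
            apply filter_congr
            intro t _
            rw [hv]
            constructor <;> intro h <;> simp only at h ⊢ <;> omega
          rw [e3]
          refine this.trans ?_
          exact div_le_div_of_nonneg_left (by positivity) (by positivity) (pow_le_pow_left₀ hK1p.le hkr j))
      refine e2.trans ?_
      refine mul_le_mul_of_nonneg_left ?_ (by positivity)
      rw [hP]
      exact hpars
    have hcs : ∀ r a d, ‖∑ k ∈ Ioc K1 K, w k * P (v r a d k)‖ ^ 2 ≤ K * ∑ k ∈ Ioc K1 K, ‖P (v r a d k)‖ ^ 2 := by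
      intro r a d
      have e1 : ‖∑ k ∈ Ioc K1 K, w k * P (v r a d k)‖ ≤ ∑ k ∈ Ioc K1 K, ‖P (v r a d k)‖ := by
        refine norm_sum_le_of_le _ fun k _ => ?_
        rw [norm_mul]
        exact mul_le_of_le_one_left (norm_nonneg _) (hw k)
      have e2 := sq_sum_le_card_mul_sum_sq (s := Ioc K1 K) (f := fun k => ‖P (v r a d k)‖)
      have e3 : (((Ioc K1 K).card : ℕ) : ℝ) ≤ K := by
        rw [Nat.card_Ioc]
        exact_mod_cast Nat.sub_le K K1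
      calc ‖∑ k ∈ Ioc K1 K, w k * P (v r a d k)‖ ^ 2 ≤ (∑ k ∈ Ioc K1 K, ‖P (v r a d k)‖) ^ 2 :=
            pow_le_pow_left₀ (norm_nonneg _) e1 2
        _ ≤ _ := e2
        _ ≤ _ := mul_le_mul_of_nonneg_right e3 (sum_nonneg fun k _ => by positivity)
    calc ∑ r ∈ bx j H, ∑ a ∈ Ioc a0 (a0 + A), ∑ d ∈ Ioc D (2 * D), ‖∑ k ∈ Ioc K1 K, w k * P (v r a d k)‖ ^ 2
        ≤ ∑ r ∈ bx j H, ∑ a ∈ Ioc a0 (a0 + A), ∑ d ∈ Ioc D (2 * D), K * ∑ k ∈ Ioc K1 K, ‖P (v r a d k)‖ ^ 2 :=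
          sum_le_sum fun r _ => sum_le_sum fun a _ => sum_le_sum fun d _ => hcs r a d
      _ = K * ∑ k ∈ Ioc K1 K, ∑ r ∈ bx j H, ∑ a ∈ Ioc a0 (a0 + A), ∑ d ∈ Ioc D (2 * D), ‖P (v r a d k)‖ ^ 2 := by
          simp only [mul_sum]
          rw [sum_comm' (s := Ioc K1 K) (t := fun _ => bx j H) (t' := bx j H) (s' := fun _ => Ioc K1 K)
            (by intros; tauto)]
          refine sum_congr rfl fun r _ => ?_
          rw [sum_comm' (s := Ioc K1 K) (t := fun _ => Ioc a0 (a0 + A)) (t' := Ioc a0 (a0 + A))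
            (s' := fun _ => Ioc K1 K) (by intros; tauto)]
          refine sum_congr rfl fun a _ => ?_
          rw [sum_comm]
      _ ≤ K * ∑ k ∈ Ioc K1 K, (2 ^ j * A * ((bx j H).card : ℝ) / (K1 : ℝ) ^ j *
            (2 * (N * ∑ h ∈ S, ‖chf f x N h‖ ^ 2))) :=
          mul_le_mul_of_nonneg_left (sum_le_sum hfibk) hK0.le
      _ ≤ K * (K * (2 ^ j * A * ((bx j H).card : ℝ) / (K1 : ℝ) ^ j *
            (2 * (N * ∑ h ∈ S, ‖chf f x N h‖ ^ 2)))) := by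
          refine mul_le_mul_of_nonneg_left ?_ hK0.le
          rw [sum_const, nsmul_eq_mul, Nat.card_Ioc]
          refine mul_le_mul_of_nonneg_right ?_ (by positivity)
          exact_mod_cast Nat.sub_le K K1
  -- the end
  have hfin : ∀ r ∈ bx j H, ∀ a ∈ Ioc a0 (a0 + A), ∀ d ∈ Ioc D (2 * D),
      ‖∑ k ∈ Ioc K1 K, w k * fz (cut x f) (G k + bval j r σ a d k)‖ ^ 2 ≤
        2 * ‖∑ k ∈ Ioc K1 K, w k * Mi (v r a d k)‖ ^ 2 + 2 * ‖∑ k ∈ Ioc K1 K, w k * P (v r a d k)‖ ^ 2 := by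
    intro r hr a ha d hd
    have e1 : ∑ k ∈ Ioc K1 K, w k * fz (cut x f) (G k + bval j r σ a d k) =
        ∑ k ∈ Ioc K1 K, w k * Mi (v r a d k) + ∑ k ∈ Ioc K1 K, w k * P (v r a d k) := by
      rw [← sum_add_distrib]
      refine sum_congr rfl fun k hk => ?_
      have := hdec r hr a ha d hd k hk
      rw [hv] at this ⊢
      simp only at this ⊢
      rw [this]; ring
    rw [e1]
    exact norm_add_sq_le _ _
  refine (sum_le_sum fun r hr => sum_le_sum fun a ha => sum_le_sum fun d hd => hfin r hr a ha d hd).trans ?_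
  simp only [sum_add_distrib, ← mul_sum]
  have t1 := hmin.trans hbound1
  have t2 : ((bx j H).card : ℝ) * (A * D * (K : ℝ) ^ 2 / L ^ U) =
      4 * (((bx j H).card : ℝ) * (A * D * (K : ℝ) ^ 2 / (4 * L ^ U))) := by
    field_simp
  linarith

end Pool.Agent.Q111.CR
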