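import Pool.Agent.Q111.CR.Tail
import Pool.Agent.Y957.VK.Fin1

/-!
# Project CR, job LUP: upper bound for `L(s, χ)` near the line `Re s = 1`
-/

set_option autoImplicit false

namespace Pool.Agent.Q111.CR

open Finset Filter
open Pool.Agent.Q236.CR
open Pool.Agent.Y306.VK (abel')

theorem term_eq {n : ℕ} (hn : n ≠ 0) (s : ℂ) :
    (n : ℂ) ^ (-s) = (((n : ℝ) ^ (-s.re) : ℝ) : ℂ) * nt s.im n :=
  Pool.Agent.Y306.VK.term_eq hn s.re s.im

/-- the numbers -/
structure Num (C : ℕ) (c C₂ b L u v w : ℝ) : Prop where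
  c0 : 0 < c
  C1 : 1 ≤ C₂
  b0 : 0 ≤ b
  u1 : 1 ≤ u
  uv : u ^ (C + 3) = v
  v2 : v ^ 2 = L
  h1 : 18 * (1 + b + C * 3 ^ C) ≤ c * v
  h2 : 6 * (Real.log (2 * C₂) + b + Real.log (1 + 4 * L)) + 24 ≤ v
  hw : w * L = u

namespace Num

variable {C : ℕ} {c C₂ b L u v w : ℝ}

theorem v0 (h : Num C c C₂ b L u v w) : 0 < v := by
  rw [← h.uv]
  have := h.u1
  positivity

theorem L0 (h : Num C c C₂ b L u v w) : 0 < L := by
  rw [← h.v2]
  have := h.v0
  positivity

theorem logs (h : Num C c C₂ b L u v w) : 0 ≤ Real.log (2 * C₂) ∧ 0 ≤ Real.log (1 + 4 * L) := by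
  have h1 := h.C1
  have h2 := h.L0
  exact ⟨Real.log_nonneg (by linarith), Real.log_nonneg (by linarith)⟩

theorem v24 (h : Num C c C₂ b L u v w) : 6 * b + 24 ≤ v := by
  obtain ⟨h1, h2⟩ := h.logs
  have h3 := h.h2
  linarith

theorem uv3 (h : Num C c C₂ b L u v w) : u ^ 3 ≤ v := by
  rw [← h.uv]
  exact pow_le_pow_right₀ h.u1 (by omega)

theorem uv2 (h : Num C c C₂ b L u v w) : u ^ 2 ≤ v := by
  rw [← h.uv]
  exact pow_le_pow_right₀ h.u1 (by omega)

theorem uv1 (h : Num C c C₂ b L u v w) : u ≤ v := by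
  have h1 : u ^ 1 ≤ u ^ (C + 3) := pow_le_pow_right₀ h.u1 (by omega)
  rw [pow_one, h.uv] at h1
  exact h1

theorem Lb (h : Num C c C₂ b L u v w) : 144 * b + 576 ≤ L := by
  have h1 := h.v24
  have h2 := h.b0
  rw [← h.v2]
  nlinarith

theorem w0 (h : Num C c C₂ b L u v w) : 0 < w := by
  have h1 := h.hw
  have h2 := h.L0
  have h3 := h.u1
  by_contra hcon
  push Not at hcon
  nlinarith

theorem w_le (h : Num C c C₂ b L u v w) : w ≤ 1 / 2 := by
  have h1 := h.hw
  have h2 := h.uv1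
  have h3 := h.v24
  have h4 := h.b0
  have h5 := h.v2
  have h6 := h.L0
  by_contra hcon
  push Not at hcon
  nlinarith

/-- the exponent of a near piece -/
theorem near (h : Num C c C₂ b L u v w) {κ m : ℝ} (hm : L / u ≤ m) (hκ0 : 0 ≤ κ) (hκ : κ * m ≤ 2 * L) :
    b + C * (1 + κ) ^ C + m * (w - c / (1 + κ) ^ 2) ≤ 0 := by
  have hu := h.u1
  have hc := h.c0
  have hL0 := h.L0
  have hv0 := h.v0
  have hb0 := h.b0
  have hu0 : 0 < u := by linarith
  have hm0 : 0 < m := lt_of_lt_of_le (by positivity) hm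
  have hκu : κ ≤ 2 * u := by
    have h1 : κ * (L / u) ≤ 2 * L := (mul_le_mul_of_nonneg_left hm hκ0).trans hκ
    rw [mul_div_assoc', div_le_iff₀ hu0] at h1
    by_contra hcon
    push Not at hcon
    nlinarith
  have h1 : 1 + κ ≤ 3 * u := by linarith
  have h2 : (1 + κ) ^ C ≤ (3 * u) ^ C := pow_le_pow_left₀ (by linarith) h1 C
  have h3 : c / (9 * u ^ 2) ≤ c / (1 + κ) ^ 2 := by
    refine div_le_div_of_nonneg_left hc.le (by positivity) ?_
    have h4 := pow_le_pow_left₀ (by linarith : (0 : ℝ) ≤ 1 + κ) h1 2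
    calc (1 + κ) ^ 2 ≤ (3 * u) ^ 2 := h4
      _ = 9 * u ^ 2 := by ring
  have hC0 : (0 : ℝ) ≤ (C : ℝ) * 3 ^ C := by positivity
  have h18 : 18 ≤ c * v := by
    have := h.h1
    linarith
  have h5 : w ≤ c / (18 * u ^ 2) := by
    rw [le_div_iff₀ (by positivity)]
    have h6 : w * L * (18 * u ^ 2) ≤ c * L := by
      rw [h.hw]
      have h7 := h.uv3
      have h8 : 18 * v ≤ c * v * v := mul_le_mul_of_nonneg_right h18 hv0.le
      calc u * (18 * u ^ 2) = 18 * u ^ 3 := by ring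
        _ ≤ 18 * v := by linarith
        _ ≤ c * v * v := h8
        _ = c * L := by rw [← h.v2]; ring
    have h10 : L * (w * (18 * u ^ 2)) ≤ L * c := by linarith
    exact le_of_mul_le_mul_left h10 hL0
  have h6 : m * (w - c / (1 + κ) ^ 2) ≤ -(c * L / (18 * u ^ 3)) := by
    have h7 : w - c / (1 + κ) ^ 2 ≤ -(c / (18 * u ^ 2)) := by
      have e : c / (9 * u ^ 2) = 2 * (c / (18 * u ^ 2)) := by field_simp; ring
      linarith
    have h8 : c * L / (18 * u ^ 3) = (L / u) * (c / (18 * u ^ 2)) := by field_simp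
    have h9 : (L / u) * (c / (18 * u ^ 2)) ≤ m * (c / (18 * u ^ 2)) :=
      mul_le_mul_of_nonneg_right hm (by positivity)
    have h10 : m * (w - c / (1 + κ) ^ 2) ≤ m * (-(c / (18 * u ^ 2))) :=
      mul_le_mul_of_nonneg_left h7 hm0.le
    rw [h8]
    linarith
  have h7 : b + (C : ℝ) * (1 + κ) ^ C ≤ c * L / (18 * u ^ 3) := by
    rw [le_div_iff₀ (by positivity)]
    have g1 : (C : ℝ) * (1 + κ) ^ C ≤ C * (3 * u) ^ C := mul_le_mul_of_nonneg_left h2 (Nat.cast_nonneg C)
    have g2 : (C : ℝ) * (3 * u) ^ C * (18 * u ^ 3) = 18 * (C * 3 ^ C) * v := by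
      rw [← h.uv, mul_pow, pow_add]; ring
    have g3 : b * (18 * u ^ 3) ≤ 18 * b * v := by
      have := h.uv3
      nlinarith
    calc (b + (C : ℝ) * (1 + κ) ^ C) * (18 * u ^ 3) ≤ (b + C * (3 * u) ^ C) * (18 * u ^ 3) := by
          refine mul_le_mul_of_nonneg_right ?_ (by positivity)
          linarith
      _ = b * (18 * u ^ 3) + 18 * (C * 3 ^ C) * v := by rw [← g2]; ring
      _ ≤ 18 * b * v + 18 * (C * 3 ^ C) * v := by linarith
      _ ≤ (c * v) * v := by
          have g4 : (18 * (1 + b + C * 3 ^ C)) * v ≤ (c * v) * v := mul_le_mul_of_nonneg_right h.h1 hv0.le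
          nlinarith
      _ = c * L := by rw [← h.v2]; ring
  linarith

/-- the exponent of a far piece -/
theorem far (h : Num C c C₂ b L u v w) :
    Real.log (2 * C₂) + b + Real.log (1 + 4 * L) + 4 * u ≤ L / (6 * u) := by
  have hu := h.u1
  obtain ⟨l1, l2⟩ := h.logs
  have hb := h.b0
  rw [le_div_iff₀ (by positivity)]
  have h1 := h.uv1
  have h2 := h.uv2
  have h3 := h.h2
  have hv := h.v0
  rw [← h.v2] at *
  have h4 : (Real.log (2 * C₂) + b + Real.log (1 + 4 * v ^ 2)) * (6 * u) ≤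
      (Real.log (2 * C₂) + b + Real.log (1 + 4 * v ^ 2)) * (6 * v) :=
    mul_le_mul_of_nonneg_left (by linarith) (by linarith)
  nlinarith

end Num

/-- the two bounds of CHR, for one character -/
structure Ch (C : ℕ) (c C₂ : ℝ) {q : ℕ} (χ : DirichletCharacter ℂ q) : Prop where
  one : ∀ (N N' : ℕ) (t κ : ℝ), 2 ≤ N → N ≤ N' → N' ≤ 2 * N → 1 ≤ κ → |t| = (N : ℝ) ^ κ →
    ‖∑ n ∈ Finset.Ioc N N', χ (n : ZMod q) * nt t n‖ ≤
      q * (Real.exp (C * (1 + κ) ^ C) * (N : ℝ) ^ (1 - c / (1 + κ) ^ 2 : ℝ))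
  two : ∀ (N N' : ℕ) (t : ℝ), 1 ≤ N → N ≤ N' → N' ≤ 2 * N → 1 ≤ |t| →
    ‖∑ n ∈ Finset.Ioc N N', χ (n : ZMod q) * nt t n‖ ≤ q * (C₂ * (√|t| + N / √|t|) * (1 + Real.log N))

/-- one dyadic piece -/
theorem piece_le {C : ℕ} {c C₂ b L u v w : ℝ} {q : ℕ} {χ : DirichletCharacter ℂ q} (hZ : Ch C c C₂ χ)
    (h : Num C c C₂ b L u v w) (hq : (q : ℝ) ≤ Real.exp b) {s : ℂ}
    (ht : Real.log |s.im| ≤ 2 * L) (ht2 : Real.exp (L / (3 * u)) ≤ |s.im|) (hσ : 1 - w ≤ s.re)
    {M M' : ℕ} (hM1 : L / u ≤ Real.log M) (hM2 : Real.log M ≤ 4 * L) (hMM : M ≤ M')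
    (hM' : M' ≤ 2 * M) :
    ‖∑ n ∈ Ioc M M', χ (n : ZMod q) * (n : ℂ) ^ (-s)‖ ≤ 1 := by
  have hL0 := h.L0
  have hu := h.u1
  have hm0 : 0 < Real.log M := lt_of_lt_of_le (by positivity) hM1
  have hM2' : 2 ≤ M := by
    by_contra hcon
    have : M = 0 ∨ M = 1 := by omega
    rcases this with rfl | rfl <;> simp at hm0
  have hMR : (0 : ℝ) < M := by exact_mod_cast (by omega : 0 < M)
  have hw0 := h.w0
  have hσ0 : 0 ≤ s.re := by
    have := h.w_le
    linarith
  have ht1 : 1 < |s.im| := lt_of_lt_of_le (by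
    have : 0 < L / (3 * u) := by positivity
    exact Real.one_lt_exp_iff.2 this) ht2
  have ht0 : 0 < |s.im| := by linarith
  have h1 : ∑ n ∈ Ioc M M', χ (n : ZMod q) * (n : ℂ) ^ (-s) =
      ∑ n ∈ Ioc M M', ((((n : ℝ) ^ (-s.re) : ℝ)) : ℂ) * (χ (n : ZMod q) * nt s.im n) := by
    refine Finset.sum_congr rfl fun n hn => ?_
    rw [Finset.mem_Ioc] at hn
    rw [term_eq (by omega) s]
    ring
  rw [h1]
  have hanti : ∀ n : ℕ, M ≤ n → (((n + 1 : ℕ) : ℝ)) ^ (-s.re) ≤ (n : ℝ) ^ (-s.re) := by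
    intro n hn
    have hn0 : (0 : ℝ) < n := by exact_mod_cast (by omega : 0 < n)
    refine Real.rpow_le_rpow_of_nonpos hn0 ?_ (by linarith)
    push_cast
    linarith
  rcases le_total (M : ℝ) |s.im| with hMt | hMt
  · -- near
    set κ : ℝ := Real.log |s.im| / Real.log M with hκ
    have hκm : κ * Real.log M = Real.log |s.im| := by rw [hκ]; field_simp
    have hκ1 : 1 ≤ κ := by
      rw [hκ, le_div_iff₀ hm0, one_mul]
      exact Real.log_le_log hMR hMt
    have htκ : |s.im| = (M : ℝ) ^ κ := by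
      rw [Real.rpow_def_of_pos hMR, mul_comm, hκm, Real.exp_log ht0]
    have h2 := abel' (a := fun n : ℕ => (n : ℝ) ^ (-s.re))
      (z := fun n : ℕ => χ (n : ZMod q) * nt s.im n) (B := q * (Real.exp (C * (1 + κ) ^ C) *
        (M : ℝ) ^ (1 - c / (1 + κ) ^ 2 : ℝ))) hMM hanti (by positivity) (by
        intro k hk hk'
        exact hZ.one M k s.im κ hM2' hk (by omega) hκ1 htκ)
    refine h2.trans ?_
    have h3 : (M : ℝ) ^ (-s.re) * (Real.exp b * (Real.exp (C * (1 + κ) ^ C) * (M : ℝ) ^ (1 - c / (1 + κ) ^ 2 : ℝ))) =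
        Real.exp (b + C * (1 + κ) ^ C + Real.log M * (1 - s.re - c / (1 + κ) ^ 2)) := by
      rw [Real.rpow_def_of_pos hMR, Real.rpow_def_of_pos hMR, ← Real.exp_add, ← Real.exp_add, ← Real.exp_add]
      congr 1
      ring
    have h3' : (M : ℝ) ^ (-s.re) * (q * (Real.exp (C * (1 + κ) ^ C) * (M : ℝ) ^ (1 - c / (1 + κ) ^ 2 : ℝ))) ≤
        (M : ℝ) ^ (-s.re) * (Real.exp b * (Real.exp (C * (1 + κ) ^ C) * (M : ℝ) ^ (1 - c / (1 + κ) ^ 2 : ℝ))) := by
      gcongr
    refine h3'.trans ?_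
    rw [h3]
    refine le_trans (Real.exp_le_exp.2 ?_) (le_of_eq Real.exp_zero)
    have h4 := h.near hM1 (κ := κ) (by linarith) (by rw [hκm]; exact ht)
    have h5 : Real.log M * (1 - s.re - c / (1 + κ) ^ 2) ≤ Real.log M * (w - c / (1 + κ) ^ 2) :=
      mul_le_mul_of_nonneg_left (by linarith) hm0.le
    linarith
  · -- far
    have hst : 0 < √|s.im| := Real.sqrt_pos.2 ht0
    have hC1 := h.C1
    have hlogM : 1 + Real.log M ≤ 1 + 4 * L := by linarith
    have hsq : √|s.im| ≤ M / √|s.im| := by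
      rw [le_div_iff₀ hst, Real.mul_self_sqrt ht0.le]
      exact hMt
    have h2 := abel' (a := fun n : ℕ => (n : ℝ) ^ (-s.re))
      (z := fun n : ℕ => χ (n : ZMod q) * nt s.im n) (B := q * (C₂ * (√|s.im| + M / √|s.im|) * (1 + Real.log M)))
      hMM hanti (by positivity) (by
        intro k hk hk'
        exact hZ.two M k s.im (by omega) hk (by omega) ht1.le)
    refine h2.trans ?_
    have h3 : (q : ℝ) * (C₂ * (√|s.im| + M / √|s.im|) * (1 + Real.log M)) ≤
        Real.exp b * (C₂ * (2 * (M / √|s.im|)) * (1 + 4 * L)) := by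
      gcongr
      linarith
    have h4 : (M : ℝ) ^ (-s.re) * (q * (C₂ * (√|s.im| + M / √|s.im|) * (1 + Real.log M))) ≤
        (M : ℝ) ^ (-s.re) * (Real.exp b * (C₂ * (2 * (M / √|s.im|)) * (1 + 4 * L))) :=
      mul_le_mul_of_nonneg_left h3 (by positivity)
    refine h4.trans ?_
    have h5 : (M : ℝ) ^ (-s.re) * M ≤ Real.exp (4 * u) := by
      have e1 : (M : ℝ) ^ (-s.re) * M = Real.exp (Real.log M * (1 - s.re)) := by
        rw [Real.rpow_def_of_pos hMR]
        nth_rewrite 2 [← Real.exp_log hMR]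
        rw [← Real.exp_add]
        congr 1
        ring
      rw [e1]
      refine Real.exp_le_exp.2 ?_
      have e2 : Real.log M * (1 - s.re) ≤ Real.log M * w := mul_le_mul_of_nonneg_left (by linarith) hm0.le
      have e3 : Real.log M * w ≤ 4 * L * w := mul_le_mul_of_nonneg_right hM2 hw0.le
      have e4 := h.hw
      nlinarith
    have h6 : Real.exp (L / (6 * u)) ≤ √|s.im| := by
      apply Real.le_sqrt_of_sq_le
      rw [← Real.exp_nat_mul]
      refine le_trans (le_of_eq ?_) ht2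
      congr 1
      push_cast
      field_simp
      norm_num
    have h7 : Real.exp (Real.log (2 * C₂) + b + Real.log (1 + 4 * L) + 4 * u) ≤ Real.exp (L / (6 * u)) :=
      Real.exp_le_exp.2 h.far
    rw [Real.exp_add, Real.exp_add, Real.exp_add, Real.exp_log (by linarith), Real.exp_log (by linarith)] at h7
    have h8 : (M : ℝ) ^ (-s.re) * (Real.exp b * (C₂ * (2 * (M / √|s.im|)) * (1 + 4 * L))) =
        (2 * C₂ * Real.exp b * (1 + 4 * L) * ((M : ℝ) ^ (-s.re) * M)) / √|s.im| := by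
      field_simp
    rw [h8, div_le_one hst]
    refine le_trans ?_ h6
    refine le_trans ?_ h7
    exact mul_le_mul_of_nonneg_left h5 (by positivity)

/-- all the pieces -/
theorem pieces_le {C : ℕ} {c C₂ b L u v w : ℝ} {q : ℕ} {χ : DirichletCharacter ℂ q} (hZ : Ch C c C₂ χ)
    (h : Num C c C₂ b L u v w) (hq : (q : ℝ) ≤ Real.exp b) {s : ℂ}
    (ht : Real.log |s.im| ≤ 2 * L) (ht2 : Real.exp (L / (3 * u)) ≤ |s.im|) (hσ : 1 - w ≤ s.re)
    {Y N : ℕ} (hY0 : 1 ≤ Y) (hY : L / u ≤ Real.log Y) (hN : Real.log N ≤ 4 * L) (hYN : Y ≤ N)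
    (i : ℕ) :
    ‖∑ n ∈ Ioc Y (min (2 ^ i * Y) N), χ (n : ZMod q) * (n : ℂ) ^ (-s)‖ ≤ i := by
  induction i with
  | zero => simp [min_eq_left hYN]
  | succ i ih =>
    have hYi : Y ≤ 2 ^ i * Y := Nat.le_mul_of_pos_left _ (by positivity)
    have hP1 : Y ≤ min (2 ^ i * Y) N := le_min hYi hYN
    have hP2 : min (2 ^ i * Y) N ≤ min (2 ^ (i + 1) * Y) N := by
      refine min_le_min_right _ ?_
      rw [pow_succ]
      nlinarith [hYi]
    have hP3 : min (2 ^ (i + 1) * Y) N ≤ 2 * min (2 ^ i * Y) N := by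
      rw [pow_succ]
      rcases le_total (2 ^ i * Y) N with h1 | h1
      · rw [min_eq_left h1]
        refine (min_le_left _ _).trans (le_of_eq ?_)
        ring
      · rw [min_eq_right h1]
        exact (min_le_right _ _).trans (by omega)
    rw [← Finset.sum_Ioc_consecutive _ hP1 hP2]
    have hY0R : (0 : ℝ) < Y := by exact_mod_cast (by omega : 0 < Y)
    have hPpos : (0 : ℝ) < ((min (2 ^ i * Y) N : ℕ) : ℝ) := by
      exact_mod_cast (lt_of_lt_of_le (by omega : 0 < Y) hP1)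
    have h1 := piece_le hZ h hq ht ht2 hσ (M := min (2 ^ i * Y) N) (M' := min (2 ^ (i + 1) * Y) N)
      (hY.trans (Real.log_le_log hY0R (by exact_mod_cast hP1)))
      ((Real.log_le_log hPpos (by exact_mod_cast min_le_right _ _)).trans hN) hP2 hP3
    push_cast
    exact (norm_add_le _ _).trans (add_le_add ih h1)

/-- the beginning of the series -/
theorem first_le {C : ℕ} {c C₂ b L u v w : ℝ} {q : ℕ} (χ : DirichletCharacter ℂ q)
    (h : Num C c C₂ b L u v w) {s : ℂ} (hσ : 1 - w ≤ s.re) {P : ℕ} (hP : Real.log P ≤ L / u + 1) :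
    ‖∑ n ∈ Ioc 0 P, χ (n : ZMod q) * (n : ℂ) ^ (-s)‖ ≤ 8 * (2 + L) := by
  have hw := h.w0
  have hw2 := h.w_le
  have hu := h.u1
  have hL0 := h.L0
  have hu0 : 0 < u := by linarith
  have hLu : L / u ≤ L := div_le_self hL0.le hu
  have h1 : ∀ n ∈ Ioc 0 P, ‖χ (n : ZMod q) * (n : ℂ) ^ (-s)‖ ≤ 8 * (1 / (n : ℝ)) := by
    intro n hn
    rw [Finset.mem_Ioc] at hn
    have hn0 : (0 : ℝ) < n := by exact_mod_cast hn.1
    have hn1 : (1 : ℝ) ≤ n := by exact_mod_cast hn.1
    rw [norm_mul, Complex.norm_natCast_cpow_of_pos hn.1]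
    have e0 : ‖χ (n : ZMod q)‖ ≤ 1 := DirichletCharacter.norm_le_one χ _
    refine (mul_le_of_le_one_left (by positivity) e0).trans ?_
    have e1 : (-s).re = (1 - s.re) + (-1) := by
      rw [Complex.neg_re]
      ring
    rw [e1, Real.rpow_add hn0, Real.rpow_neg_one, ← one_div]
    refine mul_le_mul_of_nonneg_right ?_ (by positivity)
    have hpow : (n : ℝ) ^ (1 - s.re) ≤ Real.exp (w * Real.log n) := by
      rw [Real.rpow_def_of_pos hn0]
      refine Real.exp_le_exp.2 ?_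
      rw [mul_comm w]
      exact mul_le_mul_of_nonneg_left (by linarith) (Real.log_nonneg hn1)
    refine hpow.trans ?_
    have h2 : w * Real.log n ≤ 2 := by
      have h3 : Real.log n ≤ L / u + 1 :=
        (Real.log_le_log hn0 (by exact_mod_cast hn.2)).trans hP
      have h4 : w * Real.log n ≤ w * (L / u + 1) := mul_le_mul_of_nonneg_left h3 hw.le
      have h5 : w * (L / u + 1) = 1 + w := by
        rw [mul_add, mul_one, mul_div_assoc', h.hw, div_self hu0.ne']
      linarith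
    have h3 : Real.exp (w * Real.log n) ≤ Real.exp 2 := Real.exp_le_exp.2 h2
    have h4 : Real.exp 2 ≤ 8 := by
      have h5 := Real.exp_one_lt_d9
      have h6 : Real.exp 2 = Real.exp 1 * Real.exp 1 := by
        rw [← Real.exp_add]; norm_num
      rw [h6]
      have h7 := Real.exp_pos 1
      nlinarith
    linarith
  refine (norm_sum_le_of_le _ h1).trans ?_
  rw [← Finset.mul_sum]
  refine mul_le_mul_of_nonneg_left ?_ (by norm_num)
  have h2 : ∑ n ∈ Ioc 0 P, 1 / (n : ℝ) = (harmonic P : ℝ) := by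
    rw [harmonic_eq_sum_Icc]
    push_cast
    refine Finset.sum_congr ?_ fun n _ => one_div _
    ext n
    simp [Finset.mem_Ioc, Finset.mem_Icc, Nat.one_le_iff_ne_zero, Nat.pos_iff_ne_zero]
  rw [h2]
  have h3 := harmonic_le_one_add_log P
  linarith

/-- the bound under the numerical conditions -/
theorem main_le {C : ℕ} {c C₂ b L u v w : ℝ} {q : ℕ} [NeZero q] {χ : DirichletCharacter ℂ q} (hZ : Ch C c C₂ χ)
    (h : Num C c C₂ b L u v w) (hq : (q : ℝ) ≤ Real.exp b) (hχ : χ ≠ 1) {s : ℂ}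
    (ht : |s.im| ≤ 3 * Real.exp L) (hσ : 1 - w ≤ s.re) (hσ3 : s.re ≤ 3) :
    ‖DirichletCharacter.LFunction χ s‖ ≤ 20 * L := by
  have hw := h.w0
  have hw2 := h.w_le
  have hu := h.u1
  have hL0 := h.L0
  have hb0 := h.b0
  have hLb := h.Lb
  have hu0 : 0 < u := by linarith
  have hσ2 : 1 / 2 ≤ s.re := by linarith
  have hLu : L / u ≤ L := div_le_self hL0.le hu
  have hLu0 : 0 < L / u := by positivity
  have hq1 : (1 : ℝ) ≤ q := by exact_mod_cast NeZero.one_le
  set t : ℝ := |s.im| with htdef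
  have ht0 : 0 ≤ t := abs_nonneg _
  have hEL : 576 ≤ Real.exp L := by
    have := Real.add_one_le_exp L
    linarith
  set Z : ℝ := q * (t + 2) with hZdef
  have hZ2 : 2 ≤ Z := by
    rw [hZdef]; nlinarith
  set X : ℕ := ⌈Z ^ 2⌉₊ with hXdef
  set Y : ℕ := ⌈Real.exp (L / u)⌉₊ with hYdef
  have hX1 : Z ^ 2 ≤ X := Nat.le_ceil _
  have hX2 : (X : ℝ) < Z ^ 2 + 1 := Nat.ceil_lt_add_one (by positivity)
  have hX4 : (4 : ℝ) ≤ X := by nlinarith
  have hX0 : (0 : ℝ) < X := by linarith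
  have hXn : 1 ≤ X := by
    have : 0 < X := by exact_mod_cast hX0
    exact this
  have hlogX : Real.log X ≤ 4 * L := by
    rw [← Real.log_exp (4 * L)]
    refine Real.log_le_log hX0 ?_
    have e1 : Z ≤ Real.exp b * (4 * Real.exp L) := by
      rw [hZdef]
      refine mul_le_mul hq ?_ (by linarith) (Real.exp_pos _).le
      linarith
    have e2 : Z ^ 2 ≤ (Real.exp b * (4 * Real.exp L)) ^ 2 := pow_le_pow_left₀ (by linarith) e1 2
    have e3 : (X : ℝ) ≤ 2 * (Real.exp b * (4 * Real.exp L)) ^ 2 := by nlinarith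
    have e4 : 2 * (Real.exp b * (4 * Real.exp L)) ^ 2 = 32 * Real.exp (2 * b + 2 * L) := by
      rw [Real.exp_add, two_mul b, two_mul L, Real.exp_add, Real.exp_add]; ring
    rw [e4] at e3
    refine e3.trans ?_
    have e5 : Real.exp (4 * L) = Real.exp (2 * L - 2 * b) * Real.exp (2 * b + 2 * L) := by
      rw [← Real.exp_add]; congr 1; ring
    rw [e5]
    refine mul_le_mul_of_nonneg_right ?_ (Real.exp_pos _).le
    have := Real.add_one_le_exp (2 * L - 2 * b)
    linarith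
  have hY1 : Real.exp (L / u) ≤ Y := Nat.le_ceil _
  have hY2 : (Y : ℝ) ≤ Real.exp (L / u + 1) := by
    have h1 : (Y : ℝ) < Real.exp (L / u) + 1 := Nat.ceil_lt_add_one (Real.exp_pos _).le
    have h2 : (1 : ℝ) ≤ Real.exp (L / u) := Real.one_le_exp hLu0.le
    have h3 := Real.exp_one_gt_d9
    rw [Real.exp_add]
    nlinarith
  have hY0 : (0 : ℝ) < Y := lt_of_lt_of_le (Real.exp_pos _) hY1
  have hYn : 1 ≤ Y := by
    have : 0 < Y := by exact_mod_cast hY0
    exact this
  have hlogY : L / u ≤ Real.log Y := by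
    rw [← Real.log_exp (L / u)]
    exact Real.log_le_log (Real.exp_pos _) hY1
  have hlogY2 : Real.log Y ≤ L / u + 1 := by
    rw [← Real.log_exp (L / u + 1)]
    exact Real.log_le_log hY0 hY2
  -- truncation
  have htr := truncation hχ (s := s) (by linarith) hXn
  have htr8 : ((q : ℝ) + 1) * (X : ℝ) ^ (-s.re) * (1 + ‖s‖ / s.re) ≤ 8 := by
    have e1 : (X : ℝ) ^ (-s.re) ≤ (X : ℝ) ^ (-(1 / 2 : ℝ)) :=
      Real.rpow_le_rpow_of_exponent_le (by linarith) (by linarith)
    have e2 : (X : ℝ) ^ (-(1 / 2 : ℝ)) ≤ 1 / Z := by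
      rw [Real.rpow_neg hX0.le, ← one_div]
      refine one_div_le_one_div_of_le (by linarith) ?_
      rw [← Real.sqrt_eq_rpow]
      exact Real.le_sqrt_of_sq_le hX1
    have e3 : 1 + ‖s‖ / s.re ≤ 4 * (t + 2) := by
      have f1 := Complex.norm_le_abs_re_add_abs_im s
      have f2 : |s.re| ≤ 3 := by rw [abs_le]; constructor <;> linarith
      have f3 : ‖s‖ / s.re ≤ 2 * ‖s‖ := by
        rw [div_le_iff₀ (by linarith)]
        nlinarith [norm_nonneg s]
      linarith
    have e4 : ((q : ℝ) + 1) ≤ 2 * q := by linarith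
    have e5 : 0 ≤ 1 + ‖s‖ / s.re := by positivity
    calc ((q : ℝ) + 1) * (X : ℝ) ^ (-s.re) * (1 + ‖s‖ / s.re)
        ≤ (2 * q) * (1 / Z) * (4 * (t + 2)) :=
          mul_le_mul (mul_le_mul e4 (e1.trans e2) (by positivity) (by positivity)) e3 e5 (by positivity)
      _ = 8 * (q * (t + 2)) / Z := by ring
      _ = 8 := by
          rw [← hZdef]
          have : Z ≠ 0 := by linarith
          field_simp
  have hkey : ‖∑ n ∈ Ioc 0 X, χ (n : ZMod q) * (n : ℂ) ^ (-s)‖ ≤ 8 * (2 + L) + (6 * L + 1) := by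
    rcases le_or_gt X Y with hXY | hXY
    · have h1 := first_le χ h hσ (P := X)
        ((Real.log_le_log hX0 (by exact_mod_cast hXY)).trans hlogY2)
      linarith
    · -- heights
      have ht2 : Real.exp (L / (3 * u)) ≤ t := by
        have e0 : (Y : ℝ) + 1 ≤ X := by exact_mod_cast hXY
        have e1 : Real.exp (L / u) < Z ^ 2 := by linarith
        have e2 : Real.exp (L / u) = Real.exp (L / (2 * u)) ^ 2 := by
          rw [← Real.exp_nat_mul]
          congr 1
          push_cast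
          field_simp
        rw [e2] at e1
        have e3 : Real.exp (L / (2 * u)) < Z := lt_of_pow_lt_pow_left₀ 2 (by linarith) e1
        have e4 : Z ≤ Real.exp b * (t + 2) := by
          rw [hZdef]
          exact mul_le_mul_of_nonneg_right hq (by linarith)
        have e5 := h.far
        obtain ⟨l1, l2⟩ := h.logs
        have e6 : L / (3 * u) + 4 + b ≤ L / (2 * u) := by
          have : L / (2 * u) = L / (3 * u) + L / (6 * u) := by field_simp; norm_num
          linarith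
        have e7 : Real.exp (L / (3 * u) + 4) * Real.exp b ≤ Real.exp b * (t + 2) := by
          rw [← Real.exp_add]
          exact ((Real.exp_le_exp.2 e6).trans e3.le).trans e4
        have e8 : Real.exp (L / (3 * u) + 4) ≤ t + 2 := by
          rw [mul_comm] at e7
          exact le_of_mul_le_mul_left e7 (Real.exp_pos _)
        rw [Real.exp_add] at e8
        have e9 := Real.add_one_le_exp (4 : ℝ)
        have e10 : 1 ≤ Real.exp (L / (3 * u)) := Real.one_le_exp (by positivity)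
        nlinarith
      have htL : Real.log t ≤ 2 * L := by
        rw [← Real.log_exp (2 * L)]
        refine Real.log_le_log (lt_of_lt_of_le (Real.exp_pos _) ht2) ?_
        have : Real.exp (2 * L) = Real.exp L * Real.exp L := by
          rw [← Real.exp_add]; congr 1; ring
        rw [this]
        nlinarith
      have hfirst := first_le χ h hσ (P := Y) hlogY2
      have h1 := pieces_le hZ h hq (s := s) htL ht2 hσ hYn hlogY hlogX hXY.le (Nat.log 2 X + 1)
      have h2 : X ≤ 2 ^ (Nat.log 2 X + 1) * Y := by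
        have h3 : X < 2 ^ (Nat.log 2 X + 1) := Nat.lt_pow_succ_log_self (by norm_num) X
        exact h3.le.trans (Nat.le_mul_of_pos_right _ (by omega))
      rw [min_eq_right h2] at h1
      have h3 : (2 : ℝ) ^ (Nat.log 2 X) ≤ X := by
        exact_mod_cast Nat.pow_log_le_self 2 (by omega)
      have h4 := Real.log_le_log (by positivity) h3
      rw [Real.log_pow] at h4
      have h5 := Real.log_two_gt_d9
      have h6 : (0 : ℝ) ≤ (Nat.log 2 X : ℝ) := Nat.cast_nonneg _
      have h7 : (Nat.log 2 X : ℝ) ≤ 6 * L := by nlinarith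
      rw [← Finset.sum_Ioc_consecutive _ (Nat.zero_le _) hXY.le]
      push_cast at h1
      refine (norm_add_le _ _).trans ?_
      linarith
  have hfin := norm_add_le (DirichletCharacter.LFunction χ s - ∑ n ∈ Ioc 0 X, χ (n : ZMod q) * (n : ℂ) ^ (-s))
    (∑ n ∈ Ioc 0 X, χ (n : ZMod q) * (n : ℂ) ^ (-s))
  rw [sub_add_cancel] at hfin
  linarith

theorem ev_log (a b : ℝ) : ∀ᶠ L : ℝ in atTop, a + b * Real.log L ≤ √L := by
  have h1 : ∀ᶠ L : ℝ in atTop, ‖Real.log L‖ ≤ (1 / (2 * (|b| + 1))) * ‖L ^ (1 / 2 : ℝ)‖ :=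
    (isLittleO_log_rpow_atTop (by norm_num : (0 : ℝ) < 1 / 2)).bound (by positivity)
  have h2 : ∀ᶠ L : ℝ in atTop, 2 * |a| ≤ √L := by
    have := (tendsto_rpow_atTop (by norm_num : (0 : ℝ) < 1 / 2)).eventually_ge_atTop (2 * |a|)
    filter_upwards [this] with L hL
    rwa [Real.sqrt_eq_rpow]
  filter_upwards [h1, h2, eventually_ge_atTop 1] with L h1 h2 h3
  rw [← Real.sqrt_eq_rpow, Real.norm_eq_abs, Real.norm_eq_abs, abs_of_nonneg (Real.log_nonneg h3),
    abs_of_nonneg (Real.sqrt_nonneg L)] at h1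
  have h4 : b * Real.log L ≤ |b| * Real.log L :=
    mul_le_mul_of_nonneg_right (le_abs_self b) (Real.log_nonneg h3)
  have h5 : |b| * Real.log L ≤ (|b| + 1) * (1 / (2 * (|b| + 1)) * √L) :=
    mul_le_mul (by linarith) h1 (Real.log_nonneg h3) (by positivity)
  have h6 : (|b| + 1) * (1 / (2 * (|b| + 1)) * √L) = √L / 2 := by
    have : |b| + 1 ≠ 0 := by positivity
    field_simp
  have h7 := le_abs_self a
  linarith

theorem trivial_le {q : ℕ} [NeZero q] {s : ℂ} (hs : s ≠ 1) (hσ : 0 ≤ s.re) :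
    ‖DirichletCharacter.LFunction (1 : DirichletCharacter ℂ q) s‖ ≤ q * ‖riemannZeta s‖ := by
  have h1 := DirichletCharacter.LFunctionTrivChar_eq_mul_riemannZeta (N := q) hs
  have h2 : DirichletCharacter.LFunction (1 : DirichletCharacter ℂ q) s =
      (∏ p ∈ q.primeFactors, (1 - (p : ℂ) ^ (-s))) * riemannZeta s := h1
  rw [h2, norm_mul]
  refine mul_le_mul_of_nonneg_right ?_ (norm_nonneg _)
  rw [norm_prod]
  have h3 : ∀ p ∈ q.primeFactors, ‖1 - (p : ℂ) ^ (-s)‖ ≤ (p : ℝ) := by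
    intro p hp
    have hp' := Nat.prime_of_mem_primeFactors hp
    refine (norm_sub_le _ _).trans ?_
    rw [norm_one, Complex.norm_natCast_cpow_of_pos hp'.pos]
    have e1 : (p : ℝ) ^ (-s).re ≤ 1 := by
      refine Real.rpow_le_one_of_one_le_of_nonpos (by exact_mod_cast hp'.one_le) ?_
      simpa using hσ
    have e2 : (2 : ℝ) ≤ p := by exact_mod_cast hp'.two_le
    linarith
  refine (Finset.prod_le_prod (fun _ _ => norm_nonneg _) h3).trans ?_
  rw [← Nat.cast_prod]
  exact_mod_cast Nat.le_of_dvd (NeZero.pos q) (Nat.prod_primeFactors_dvd q)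

/-- **LUP** -/
theorem lup : S_CHR → S_LUP := by
  rintro ⟨⟨C, c, hc, _, hone⟩, ⟨C₂, hC₂, htwo⟩⟩ B
  obtain ⟨δ₁, K₁, t₀, hδ₁, hδ₁1, hK₁, ht₀, hzeta⟩ := Pool.Agent.Y957.VK.zeta_all
  have hC0 : (0 : ℝ) ≤ C := Nat.cast_nonneg C
  set δ₀ : ℝ := 1 / (2 * ((C : ℝ) + 3)) with hδ₀
  have hδ₀0 : 0 < δ₀ := by positivity
  have hδ₀1 : δ₀ < 1 := by
    rw [hδ₀, div_lt_one (by positivity)]
    linarith
  set δ : ℝ := min δ₀ (δ₁ / 2) with hδ
  have hδ0 : 0 < δ := lt_min hδ₀0 (by positivity)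
  have hδ1 : δ < 1 := (min_le_left _ _).trans_lt hδ₀1
  -- the compact part
  obtain ⟨M₀, hM₀⟩ : ∃ M₀ : ℝ, ∀ z : ℂ, 1 / 2 ≤ z.re → z.re ≤ 3 → 1 ≤ |z.im| → |z.im| ≤ t₀ →
      ‖riemannZeta z‖ ≤ M₀ := by
    have hcomp : IsCompact ((Set.Icc (1 / 2 : ℝ) 3) ×ℂ (Set.Icc (-t₀) (-1) ∪ Set.Icc 1 t₀)) :=
      IsCompact.reProdIm isCompact_Icc (isCompact_Icc.union isCompact_Icc)
    obtain ⟨M, hM⟩ := hcomp.exists_bound_of_continuousOn (f := riemannZeta) (by
      intro z hz
      refine (differentiableAt_riemannZeta ?_).continuousAt.continuousWithinAt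
      rintro rfl
      rw [Complex.mem_reProdIm] at hz
      rcases hz.2 with h | h
      · have := h.2
        simp at this
        linarith
      · have := h.1
        simp at this
        linarith)
    refine ⟨M, fun z h1 h2 h3 h4 => hM z ?_⟩
    rw [Complex.mem_reProdIm]
    refine ⟨⟨h1, h2⟩, ?_⟩
    rcases le_total 0 z.im with h | h
    · right
      rw [abs_of_nonneg h] at h3 h4
      exact ⟨h3, h4⟩
    · left
      rw [abs_of_nonpos h] at h3 h4
      exact ⟨by linarith, by linarith⟩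
  -- large L
  have hev : ∀ᶠ L : ℝ in atTop, (18 * (1 + B * Real.log L + C * 3 ^ C) ≤ c * √L) ∧
      (6 * (Real.log (2 * C₂) + B * Real.log L + Real.log (1 + 4 * L)) + 24 ≤ √L) ∧ 20 ≤ L ∧
      2 ≤ L ^ (δ₁ / 2) ∧ M₀ ≤ L ∧ 2 * K₁ ≤ L := by
    have e1 := ev_log (18 * (1 + C * 3 ^ C) / c) (18 * B / c)
    have e2 := ev_log (6 * (Real.log (2 * C₂) + 2) + 24) (6 * (B + 1))
    have e3 := (tendsto_rpow_atTop (by positivity : (0 : ℝ) < δ₁ / 2)).eventually_ge_atTop 2
    filter_upwards [e1, e2, e3, eventually_ge_atTop 20, eventually_ge_atTop M₀, eventually_ge_atTop (2 * K₁)]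
      with L h1 h2 h3 h4 h5 h6
    refine ⟨?_, ?_, h4, h3, h5, h6⟩
    · have := mul_le_mul_of_nonneg_left h1 hc.le
      have e : c * (18 * (1 + C * 3 ^ C) / c + 18 * B / c * Real.log L) =
          18 * (1 + B * Real.log L + C * 3 ^ C) := by
        field_simp
        ring
      rwa [e] at this
    · have h7 : Real.log (1 + 4 * L) ≤ 2 + Real.log L := by
        have e1 : Real.log (1 + 4 * L) ≤ Real.log (5 * L) := Real.log_le_log (by linarith) (by linarith)
        rw [Real.log_mul (by norm_num) (by linarith)] at e1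
        have e2 : Real.log 5 ≤ 2 := by
          rw [Real.log_le_iff_le_exp (by norm_num)]
          have f1 := Real.exp_one_gt_d9
          have f2 : Real.exp 2 = Real.exp 1 * Real.exp 1 := by
            rw [← Real.exp_add]; norm_num
          rw [f2]
          nlinarith
        linarith
      linarith
  obtain ⟨L₀, hL₀⟩ := eventually_atTop.1 hev
  refine ⟨δ, B + 2, max 3 (Real.exp L₀), hδ0, hδ1, by
    have : (0 : ℝ) ≤ B := Nat.cast_nonneg B
    linarith, le_max_left _ _, ?_⟩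
  intro T hT q hqz hn χ s hcase him hσ hσ3
  have hT0 : 0 < T := lt_of_lt_of_le (by norm_num) ((le_max_left _ _).trans hT)
  set L : ℝ := Real.log T with hLdef
  have hTL : Real.exp L = T := Real.exp_log hT0
  have hLL : L₀ ≤ L := by
    rw [hLdef, ← Real.log_exp L₀]
    exact Real.log_le_log (Real.exp_pos _) ((le_max_right _ _).trans hT)
  obtain ⟨g1, g2, g3, g4, g5, g6⟩ := hL₀ L hLL
  have hL1 : 1 ≤ L := by linarith
  have hL0 : 0 < L := by linarith
  have hb0 : 0 ≤ (B : ℝ) * Real.log L := mul_nonneg (Nat.cast_nonneg B) (Real.log_nonneg hL1)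
  have hqb : (q : ℝ) ≤ Real.exp (B * Real.log L) := by
    rw [Real.exp_nat_mul, Real.exp_log hL0]
    exact hn
  have hnum : Num C c C₂ (B * Real.log L) L (L ^ δ₀) (√L) (L ^ (δ₀ - 1)) := by
    refine ⟨hc, hC₂, hb0, Real.one_le_rpow hL1 hδ₀0.le, ?_, Real.sq_sqrt hL0.le, g1, g2, ?_⟩
    · rw [← Real.rpow_natCast, ← Real.rpow_mul hL0.le, Real.sqrt_eq_rpow]
      congr 1
      rw [hδ₀]
      push_cast
      field_simp
    · rw [← Real.rpow_add_one hL0.ne']
      congr 1
      ring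
  have hσ' : 1 - L ^ (δ₀ - 1) ≤ s.re := by
    have : L ^ (δ - 1) ≤ L ^ (δ₀ - 1) :=
      Real.rpow_le_rpow_of_exponent_le hL1 (by have := min_le_left δ₀ (δ₁ / 2); linarith)
    linarith
  have hσ2 : 1 / 2 ≤ s.re := by
    have := hnum.w_le
    linarith
  have hLB : (1 : ℝ) ≤ L ^ B := one_le_pow₀ hL1
  have hfin : ∀ x : ℝ, x ≤ L ^ B * (L * L) → x ≤ L ^ ((B : ℝ) + 2) := by
    intro x hx
    have e1 : L ^ ((B : ℝ) + 2) = L ^ B * (L * L) := by
      rw [Real.rpow_add hL0, Real.rpow_natCast, Real.rpow_two]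
      ring
    rwa [e1]
  apply hfin
  by_cases hχ : χ = 1
  · subst hχ
    have him1 : 1 ≤ |s.im| := by
      rcases hcase with h | h
      · exact absurd rfl h
      · exact h
    have hs1 : s ≠ 1 := by
      rintro rfl
      simp at him1
      linarith
    refine (trivial_le hs1 (by linarith)).trans ?_
    refine mul_le_mul hn ?_ (norm_nonneg _) (by positivity)
    rcases le_or_gt |s.im| t₀ with ht | ht
    · refine (hM₀ s hσ2 hσ3 him1 ht).trans ?_
      nlinarith
    · have hlt : Real.log |s.im| ≤ 2 * L := by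
        rw [← Real.log_exp (2 * L)]
        refine Real.log_le_log (by linarith) ?_
        have : Real.exp (2 * L) = Real.exp L * Real.exp L := by
          rw [← Real.exp_add]; congr 1; ring
        rw [this]
        have h3 : 3 ≤ Real.exp L := by rw [hTL]; exact (le_max_left _ _).trans hT
        rw [← hTL] at him
        nlinarith [Real.exp_pos L]
      have hl0 : 0 < Real.log |s.im| := Real.log_pos (by linarith)
      have hreg : 1 - Real.log |s.im| ^ (δ₁ - 1) ≤ s.re := by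
        have e1 : (2 * L) ^ (δ₁ - 1) ≤ Real.log |s.im| ^ (δ₁ - 1) :=
          Real.rpow_le_rpow_of_nonpos hl0 hlt (by linarith)
        have e2 : L ^ (δ - 1) ≤ (2 * L) ^ (δ₁ - 1) := by
          rw [Real.mul_rpow (by norm_num) hL0.le]
          have f1 : (1 / 2 : ℝ) ≤ (2 : ℝ) ^ (δ₁ - 1) := by
            have : (2 : ℝ) ^ (-1 : ℝ) ≤ (2 : ℝ) ^ (δ₁ - 1) :=
              Real.rpow_le_rpow_of_exponent_le (by norm_num) (by linarith)
            rw [Real.rpow_neg_one] at this
            linarith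
          have f2 : L ^ (δ₁ - 1) = L ^ (δ₁ - δ) * L ^ (δ - 1) := by
            rw [← Real.rpow_add hL0]; congr 1; ring
          have f3 : 2 ≤ L ^ (δ₁ - δ) :=
            g4.trans (Real.rpow_le_rpow_of_exponent_le hL1 (by have := min_le_right δ₀ (δ₁ / 2); linarith))
          have f4 : 0 < L ^ (δ - 1) := Real.rpow_pos_of_pos hL0 _
          rw [f2]
          calc L ^ (δ - 1) = 1 / 2 * (2 * L ^ (δ - 1)) := by ring
            _ ≤ (2 : ℝ) ^ (δ₁ - 1) * (L ^ (δ₁ - δ) * L ^ (δ - 1)) :=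
              mul_le_mul f1 (mul_le_mul_of_nonneg_right f3 f4.le) (by positivity) (by positivity)
        linarith
      have h4 := hzeta s.re s.im ht.le hreg hσ3
      have h5 : riemannZeta ⟨s.re, s.im⟩ = riemannZeta s := rfl
      rw [h5] at h4
      refine h4.trans ?_
      have : K₁ * Real.log |s.im| ≤ K₁ * (2 * L) := mul_le_mul_of_nonneg_left hlt (by linarith)
      nlinarith
  · have h4 := main_le ⟨hone q hqz χ, htwo q hqz χ⟩ hnum hqb hχ (by rw [hTL]; exact him) hσ' hσ3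
    refine h4.trans ?_
    nlinarith

end Pool.Agent.Q111.CR
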