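import Pool.Agent.Q236.CR.Stm

/-!
# Project CR, job LZ: the sieve model in short intervals
-/

set_option autoImplicit false

namespace Pool.Agent.Q111.CR

open Finset Filter
open Pool.Agent.Q236.CR Pool.Agent.H373R2.T7
open Pool.Agent.H469R2.NK (e norm_e)

theorem count_int (Y m q : ℕ) (hq : 1 ≤ q) (S : Finset ℕ) (hS : ∀ p ∈ S, p.Prime) (hd : ∀ p ∈ S, ¬ p ∣ q) (c : ℕ) :
    |(((Ioc m (m + Y)).filter (fun n => n ≡ c [MOD q] ∧ ∀ p ∈ S, n % p = 0)).card : ℝ) -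
      (Y : ℝ) / q * ∏ p ∈ S, (1 / (p : ℝ))| ≤ 2 := by
  have h1 : ∀ p ∈ S, (((range p).filter (fun a => a = 0)).card : ℝ) = 1 := by
    intro p hp
    have : (range p).filter (fun a => a = 0) = {0} := by
      ext a
      rw [mem_filter, mem_range, mem_singleton]
      constructor
      · rintro ⟨_, h⟩; exact h
      · rintro rfl; exact ⟨(hS p hp).pos, rfl⟩
    rw [this]; simp
  have h2 : ∏ p ∈ S, ((((range p).filter (fun a => a = 0)).card : ℝ) / p) = ∏ p ∈ S, (1 / (p : ℝ)) :=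
    prod_congr rfl fun p hp => by rw [h1 p hp]
  have key : ∀ y : ℕ, |(((Ioc 0 y).filter (fun n => n ≡ c [MOD q] ∧ ∀ p ∈ S, n % p = 0)).card : ℝ) -
      (y : ℝ) / q * ∏ p ∈ S, (1 / (p : ℝ))| ≤ 1 := by
    intro y
    have h := count_sys (fun _ a => a = 0) y S hS q hq hd c
    rw [h2, prod_congr rfl h1, prod_const_one] at h
    exact h
  have e1 : (((Ioc m (m + Y)).filter (fun n => n ≡ c [MOD q] ∧ ∀ p ∈ S, n % p = 0)).card : ℝ) =
      (((Ioc 0 (m + Y)).filter (fun n => n ≡ c [MOD q] ∧ ∀ p ∈ S, n % p = 0)).card : ℝ) -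
        (((Ioc 0 m).filter (fun n => n ≡ c [MOD q] ∧ ∀ p ∈ S, n % p = 0)).card : ℝ) := by
    rw [card_filter, card_filter, card_filter, ← Finset.sum_Ioc_consecutive _ (Nat.zero_le m) (Nat.le_add_right m Y)]
    push_cast
    ring
  have h3 := abs_le.1 (key (m + Y))
  have h4 := abs_le.1 (key m)
  have e2 : ((m + Y : ℕ) : ℝ) / q * ∏ p ∈ S, (1 / (p : ℝ)) =
      (m : ℝ) / q * ∏ p ∈ S, (1 / (p : ℝ)) + (Y : ℝ) / q * ∏ p ∈ S, (1 / (p : ℝ)) := by
    push_cast; ring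
  rw [e2] at h3
  rw [e1, abs_le]
  constructor <;> linarith [h3.1, h3.2, h4.1, h4.2]

/-- the numbers free of small primes in a progression, in an interval -/
theorem rough_int (z q c Y m r : ℕ) (hq : 1 ≤ q) (hc : c.Coprime q) (hqz : ∀ p, p.Prime → p ∣ q → p ≤ z) :
    |(((Ioc m (m + Y)).filter (fun n => n ≡ c [MOD q])).filter (fun n => ∀ p ∈ pz z, ¬ p ∣ n)).card -
      (Y : ℝ) / (Nat.totient q : ℝ) * Vz z| ≤ 2 * ((z : ℝ) + 1) ^ r + 2 * Y * Real.exp (3 * (1 + Real.log z) - r) := by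
  set T := (pz z).filter (fun p => ¬ p ∣ q) with hT
  have hq0 : (0 : ℝ) < q := by exact_mod_cast hq
  have hTz : T ⊆ pz z := filter_subset _ _
  have e1 : ((Ioc m (m + Y)).filter (fun n => n ≡ c [MOD q])).filter (fun n => ∀ p ∈ pz z, ¬ p ∣ n) =
      ((Ioc m (m + Y)).filter (fun n => n ≡ c [MOD q])).filter (fun n => ∀ p ∈ T, ¬ p ∣ n) := by
    apply filter_congr
    intro n hn
    rw [mem_filter] at hn
    constructor
    · intro h p hp
      exact h p (hTz hp)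
    · intro h p hp hpn
      by_cases hpq : p ∣ q
      · have h1 : p ∣ c := (hn.2.dvd_iff hpq).1 hpn
        have h2 := Nat.dvd_gcd h1 hpq
        rw [hc] at h2
        exact (mem_pz.1 hp).2.one_lt.ne' (Nat.dvd_one.1 h2)
      · exact h p (mem_filter.2 ⟨hp, hpq⟩) hpn
  rw [e1]
  have key := sieve_gen' ((Ioc m (m + Y)).filter (fun n => n ≡ c [MOD q])) (fun _ => (1 : ℝ)) (fun _ _ => zero_le_one)
    (fun p n => p ∣ n) T (fun p => 1 / (p : ℝ)) (fun p hp => by
      have hp2 : (2 : ℝ) ≤ p := by exact_mod_cast (mem_pz.1 (hTz hp)).2.two_le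
      constructor
      · positivity
      · rw [div_le_one (by linarith)]; linarith) ((Y : ℝ) / q) (by positivity) (fun _ => 2) r (by
      intro S hS _
      have hSp : ∀ p ∈ S, p.Prime := fun p hp => (mem_pz.1 (hTz (hS hp))).2
      have h := count_int Y m q hq S hSp (fun p hp => (mem_filter.1 (hS hp)).2) c
      have h3 : ∑ i ∈ ((Ioc m (m + Y)).filter (fun n => n ≡ c [MOD q])) with ∀ p ∈ S, p ∣ i, (1 : ℝ) =
          (((Ioc m (m + Y)).filter (fun n => n ≡ c [MOD q] ∧ ∀ p ∈ S, n % p = 0)).card : ℝ) := by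
        rw [sum_const, nsmul_eq_mul, mul_one, filter_filter]
        congr 2
        apply filter_congr
        intro n _
        simp only [Nat.dvd_iff_mod_eq_zero]
      rw [h3]
      exact h)
  have e2 : ∑ i ∈ ((Ioc m (m + Y)).filter (fun n => n ≡ c [MOD q])) with ∀ p ∈ T, ¬ p ∣ i, (1 : ℝ) =
      ((((Ioc m (m + Y)).filter (fun n => n ≡ c [MOD q])).filter (fun n => ∀ p ∈ T, ¬ p ∣ n)).card : ℝ) := by
    rw [sum_const, nsmul_eq_mul, mul_one]
  rw [e2] at key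
  have e3 : (Y : ℝ) / q * ∏ p ∈ T, (1 - 1 / (p : ℝ)) = (Y : ℝ) / (Nat.totient q : ℝ) * Vz z := by
    have h1 : ((Nat.totient q : ℕ) : ℝ) = q * ∏ p ∈ q.primeFactors, (1 - 1 / (p : ℝ)) := by
      have := Nat.totient_eq_mul_prod_factors q
      have h2 : (((Nat.totient q : ℕ) : ℚ) : ℝ) = ((q * ∏ p ∈ q.primeFactors, (1 - (p : ℚ)⁻¹) : ℚ) : ℝ) := by rw [this]
      push_cast at h2
      simp only [one_div]
      exact h2
    have h2 : Vz z = (∏ p ∈ q.primeFactors, (1 - 1 / (p : ℝ))) * ∏ p ∈ T, (1 - 1 / (p : ℝ)) := by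
      unfold Vz
      have h3 : q.primeFactors = (pz z).filter (fun p => p ∣ q) := by
        ext p
        rw [Nat.mem_primeFactors, mem_filter, mem_pz]
        constructor
        · rintro ⟨h1, h2, h3⟩
          exact ⟨⟨hqz p h1 h2, h1⟩, h2⟩
        · rintro ⟨⟨h1, h2⟩, h3⟩
          exact ⟨h2, h3, by omega⟩
      rw [h3, hT, prod_filter_mul_prod_filter_not]
    have h3 : (0 : ℝ) < ∏ p ∈ q.primeFactors, (1 - 1 / (p : ℝ)) := by
      apply prod_pos
      intro p hp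
      have : (2 : ℝ) ≤ p := by exact_mod_cast (Nat.prime_of_mem_primeFactors hp).two_le
      rw [sub_pos, div_lt_one (by linarith)]
      linarith
    rw [h1, h2]
    field_simp
  rw [e3] at key
  refine key.trans ?_
  have h4 : ∑ j ∈ range (r + 1), ∑ S ∈ T.powersetCard j, (2 : ℝ) ≤ 2 * ((z : ℝ) + 1) ^ r := by
    have h5 := card_small T r
    have h6 : ∑ j ∈ range (r + 1), ∑ S ∈ T.powersetCard j, (2 : ℝ) = 2 * ((∑ j ∈ range (r + 1), (T.powersetCard j).card : ℕ) : ℝ) := by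
      push_cast
      rw [mul_sum]
      apply sum_congr rfl
      intro j _
      rw [sum_const, nsmul_eq_mul, mul_comm]
    rw [h6]
    refine mul_le_mul_of_nonneg_left ?_ (by norm_num)
    refine h5.trans ?_
    have h7 : (T.card : ℝ) ≤ z := by exact_mod_cast (card_le_card hTz).trans (card_pz_le z)
    gcongr
  have h5 : es (fun p => 1 / (p : ℝ)) T r ≤ Real.exp (3 * (1 + Real.log z) - r) := by
    refine (es_le (fun p _ => by positivity) r).trans ?_
    apply Real.exp_le_exp.2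
    have h6 : ∑ p ∈ T, 1 / (p : ℝ) ≤ ∑ p ∈ pz z, 1 / (p : ℝ) :=
      sum_le_sum_of_subset_of_nonneg hTz (fun _ _ _ => by positivity)
    have := sum_pz_le z
    linarith
  have h6 : (Y : ℝ) / q ≤ Y := div_le_self (Nat.cast_nonneg _) (by exact_mod_cast hq)
  have h7 : 2 * ((Y : ℝ) / q) * es (fun p => 1 / (p : ℝ)) T r ≤ 2 * Y * Real.exp (3 * (1 + Real.log z) - r) := by
    have h8 : 0 ≤ es (fun p => 1 / (p : ℝ)) T r := es_nonneg (fun p _ => by positivity) r
    gcongr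
  linarith

/-- `e(a n / q)` depends only on `n` modulo `q` -/
theorem e_mod (q a n : ℕ) (hq : 1 ≤ q) : e ((a : ℝ) * n / q) = e ((a : ℝ) * ((n % q : ℕ) : ℝ) / q) := by
  have hq0 : (q : ℝ) ≠ 0 := by positivity
  have h1 : (n : ℝ) = q * ((n / q : ℕ) : ℝ) + ((n % q : ℕ) : ℝ) := by
    exact_mod_cast (Nat.div_add_mod n q).symm
  have h2 : (a : ℝ) * n / q = (a : ℝ) * ((n % q : ℕ) : ℝ) / q + ((a * (n / q) : ℕ) : ℝ) := by
    push_cast
    field_simp
    rw [h1]
    ring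
  rw [h2]
  unfold e
  rw [show ((2 * Real.pi * ((a : ℝ) * ((n % q : ℕ) : ℝ) / q + ((a * (n / q) : ℕ) : ℝ)) : ℝ) : ℂ) * Complex.I =
    ((2 * Real.pi * ((a : ℝ) * ((n % q : ℕ) : ℝ) / q) : ℝ) : ℂ) * Complex.I +
      ((a * (n / q) : ℕ) : ℂ) * (2 * Real.pi * Complex.I) by push_cast; ring]
  rw [Complex.exp_add, Complex.exp_nat_mul_two_pi_mul_I, mul_one]

/-- one class -/
theorem lamz_class (z q c Y m r : ℕ) (hz : 1 ≤ z) (hq : 1 ≤ q) (hqz : q ≤ z) :
    |∑ n ∈ (Ioc m (m + Y)).filter (fun n => n ≡ c [MOD q]), lamz z n -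
      (if c.Coprime q then (Y : ℝ) / (Nat.totient q : ℝ) else 0)| ≤
      z * (2 * ((z : ℝ) + 1) ^ r + 2 * Y * Real.exp (3 * (1 + Real.log z) - r)) := by
  by_cases hc : c.Coprime q
  · rw [if_pos hc]
    have h3 := rough_int z q c Y m r hq hc (fun p hp hpq => (Nat.le_of_dvd (by omega) hpq).trans hqz)
    have hV0 : 0 < (Vz z)⁻¹ := inv_pos.2 (Vz_pos z)
    have h4 : ∑ n ∈ (Ioc m (m + Y)).filter (fun n => n ≡ c [MOD q]), lamz z n =
        (Vz z)⁻¹ * ((((Ioc m (m + Y)).filter (fun n => n ≡ c [MOD q])).filter (fun n => ∀ p ∈ pz z, ¬ p ∣ n)).card : ℝ) := by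
      unfold lamz
      rw [← sum_filter, sum_const, nsmul_eq_mul, mul_comm]
    rw [h4]
    have h5 : (Vz z)⁻¹ * ((((Ioc m (m + Y)).filter (fun n => n ≡ c [MOD q])).filter (fun n => ∀ p ∈ pz z, ¬ p ∣ n)).card : ℝ) -
        (Y : ℝ) / (Nat.totient q : ℝ) = (Vz z)⁻¹ * (((((Ioc m (m + Y)).filter (fun n => n ≡ c [MOD q])).filter (fun n => ∀ p ∈ pz z, ¬ p ∣ n)).card : ℝ) -
        (Y : ℝ) / (Nat.totient q : ℝ) * Vz z) := by
      have := (Vz_pos z).ne'
      field_simp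
    rw [h5, abs_mul, abs_of_pos hV0]
    exact mul_le_mul (Vz_inv_le z hz) h3 (abs_nonneg _) (Nat.cast_nonneg _)
  · rw [if_neg hc, sub_zero]
    have h3 : ∑ n ∈ (Ioc m (m + Y)).filter (fun n => n ≡ c [MOD q]), lamz z n = 0 := by
      apply sum_eq_zero
      intro n hn
      rw [mem_filter] at hn
      unfold lamz
      rw [if_neg]
      intro h
      obtain ⟨p, hp, hpc, hpq⟩ := Nat.Prime.not_coprime_iff_dvd.1 hc
      exact h p (mem_pz.2 ⟨(Nat.le_of_dvd (by omega) hpq).trans hqz, hp⟩) ((hn.2.dvd_iff hpq).2 hpc)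
    rw [h3, abs_zero]
    positivity

/-- all classes -/
theorem lamz_all (z q a Y m r : ℕ) (hz : 1 ≤ z) (hq : 1 ≤ q) (hqz : q ≤ z) :
    ‖∑ n ∈ Ioc m (m + Y), (lamz z n : ℂ) * e ((a : ℝ) * n / q) - cc q a * Y‖ ≤
      q * (z * (2 * ((z : ℝ) + 1) ^ r + 2 * Y * Real.exp (3 * (1 + Real.log z) - r))) := by
  have hmod : ∀ n : ℕ, n % q < q := fun n => Nat.mod_lt _ (by omega)
  have e1 : ∑ n ∈ Ioc m (m + Y), (lamz z n : ℂ) * e ((a : ℝ) * n / q) =
      ∑ c ∈ range q, e ((a : ℝ) * c / q) *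
        ((∑ n ∈ (Ioc m (m + Y)).filter (fun n => n ≡ c [MOD q]), lamz z n : ℝ) : ℂ) := by
    rw [← Finset.sum_fiberwise_of_maps_to (s := Ioc m (m + Y)) (t := range q) (g := fun n => n % q)
      (fun n _ => mem_range.2 (hmod n))]
    refine sum_congr rfl fun c hc => ?_
    have hc' := mem_range.1 hc
    have e2 : (Ioc m (m + Y)).filter (fun n => n % q = c) = (Ioc m (m + Y)).filter (fun n => n ≡ c [MOD q]) := by
      apply filter_congr
      intro n _
      unfold Nat.ModEq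
      rw [Nat.mod_eq_of_lt hc']
    rw [e2, Complex.ofReal_sum, mul_sum]
    refine sum_congr rfl fun n hn => ?_
    have hn' : n % q = c := by
      have := (mem_filter.1 hn).2
      unfold Nat.ModEq at this
      rwa [Nat.mod_eq_of_lt hc'] at this
    rw [e_mod q a n hq, hn']
    ring
  have e2 : cc q a * (Y : ℂ) = ∑ c ∈ range q, e ((a : ℝ) * c / q) *
      (((if c.Coprime q then (Y : ℝ) / (Nat.totient q : ℝ) else 0) : ℝ) : ℂ) := by
    unfold cc
    rw [mul_assoc, sum_filter, sum_mul, mul_sum]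
    refine sum_congr rfl fun c _ => ?_
    split_ifs
    · push_cast
      ring
    · simp
  rw [e1, e2, ← sum_sub_distrib]
  have h1 : ∀ c ∈ range q, ‖e ((a : ℝ) * c / q) *
        ((∑ n ∈ (Ioc m (m + Y)).filter (fun n => n ≡ c [MOD q]), lamz z n : ℝ) : ℂ) - e ((a : ℝ) * c / q) *
      (((if c.Coprime q then (Y : ℝ) / (Nat.totient q : ℝ) else 0) : ℝ) : ℂ)‖ ≤
      z * (2 * ((z : ℝ) + 1) ^ r + 2 * Y * Real.exp (3 * (1 + Real.log z) - r)) := by
    intro c _
    rw [← mul_sub, norm_mul, norm_e, one_mul, ← Complex.ofReal_sub, Complex.norm_real, Real.norm_eq_abs]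
    exact lamz_class z q c Y m r hz hq hqz
  refine (norm_sum_le_of_le _ h1).trans ?_
  rw [sum_const, card_range, nsmul_eq_mul]

/-- **LZ** -/
theorem lz : S_LZ := by
  intro B E U
  set V : ℕ := U + B + E + 4 with hV
  obtain ⟨N0, h0⟩ := choice 1 (E + 1) V 2
  obtain ⟨n1, h1⟩ := ev_log' V 1
  obtain ⟨n2, h2⟩ := ev_L' (4 + 16 ^ (E + B + U))
  have ht : ∀ᶠ x : ℕ in atTop, (max (max N0 n1) n2 : ℕ) + 2 ≤ (x : ℝ) ^ (1 / 16 : ℝ) :=
    ((tendsto_rpow_atTop (by norm_num : (0 : ℝ) < 1 / 16)).comp tendsto_natCast_atTop_atTop).eventually_ge_atTop _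
  obtain ⟨X0, hX0⟩ := eventually_atTop.1 ht
  refine ⟨X0 + 1, fun x hx z q hq hqB hqz hzE a m Y hY => ?_⟩
  have hs := hX0 x (by omega)
  set s : ℝ := (x : ℝ) ^ (1 / 16 : ℝ) with hsdef
  have hx0 : (0 : ℝ) < x := by exact_mod_cast (by omega : 0 < x)
  have hmax0 : (0 : ℝ) ≤ ((max (max N0 n1) n2 : ℕ) : ℝ) := Nat.cast_nonneg _
  have hs2 : 2 ≤ s := by linarith
  have hs8 : (x : ℝ) ^ (1 / 8 : ℝ) = s ^ 2 := by
    rw [hsdef, ← Real.rpow_natCast, ← Real.rpow_mul hx0.le]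
    norm_num
  set N : ℕ := ⌊(x : ℝ) ^ (1 / 8 : ℝ)⌋₊ with hN
  have hN1 : (N : ℝ) ≤ s ^ 2 := by
    rw [← hs8]; exact Nat.floor_le (by positivity)
  have hN2 : s ^ 2 < N + 1 := by
    rw [← hs8]; exact Nat.lt_floor_add_one _
  have hsN : s ≤ N := by nlinarith
  have hNbig : max (max N0 n1) n2 ≤ N := by
    have : ((max (max N0 n1) n2 : ℕ) : ℝ) ≤ N := by linarith
    exact_mod_cast this
  have hNN0 : N0 ≤ N := ((le_max_left _ _).trans (le_max_left _ _)).trans hNbig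
  have hNn1 : n1 ≤ N := ((le_max_right _ _).trans (le_max_left _ _)).trans hNbig
  have hNn2 : n2 ≤ N := (le_max_right _ _).trans hNbig
  have hNY : (N : ℝ) ≤ Y := hN1.trans (by rw [← hs8]; exact hY)
  have hNpos : (0 : ℝ) < N := by linarith
  set ℓ : ℝ := Real.log N with hℓ
  set L : ℝ := Real.log x with hL
  have hℓbig : 4 + 16 ^ (E + B + U) ≤ ℓ := h2 N hNn2
  have hLℓ : L ≤ 16 * ℓ := by
    have e1 := Real.log_le_log (by linarith) hsN
    rw [hsdef, Real.log_rpow hx0] at e1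
    linarith
  have h16 : ∀ k : ℕ, k ≤ E + B + U → (16 : ℝ) ^ k ≤ ℓ := by
    intro k hk
    have : (16 : ℝ) ^ k ≤ 16 ^ (E + B + U) := pow_le_pow_right₀ (by norm_num) hk
    linarith
  have hℓ4 : 4 ≤ ℓ := by
    have : (0 : ℝ) ≤ 16 ^ (E + B + U) := by positivity
    linarith
  have hL0 : 0 ≤ L := by
    rw [hL]
    exact Real.log_natCast_nonneg x
  have hpow : ∀ k : ℕ, k ≤ E + B + U → L ^ k ≤ ℓ ^ (k + 1) := by
    intro k hk
    calc L ^ k ≤ (16 * ℓ) ^ k := pow_le_pow_left₀ hL0 hLℓ k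
      _ = 16 ^ k * ℓ ^ k := mul_pow _ _ _
      _ ≤ ℓ * ℓ ^ k := mul_le_mul_of_nonneg_right (h16 k hk) (by positivity)
      _ = ℓ ^ (k + 1) := by ring
  have hz1 : (z : ℝ) ≤ ℓ ^ (E + 1) := hzE.trans (hpow E (by omega))
  have hq1 : (q : ℝ) ≤ ℓ ^ (B + 1) := hqB.trans (hpow B (by omega))
  have hLU : L ^ U ≤ ℓ ^ (U + 1) := hpow U (by omega)
  obtain ⟨r, hr1, hr2, _⟩ := h0 N hNN0 z hz1
  have hsq := h1 N hNn1
  rw [one_mul] at hsq
  have hfin := lamz_all z q a Y m r (by omega) hq hqz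
  refine hfin.trans ?_
  have hzr : ((z : ℝ) + 1) ^ r ≤ Y / ℓ ^ V := by
    have e1 : ((z : ℝ) + 1) ^ r ≤ √N := by
      rw [← Real.sqrt_sq (by positivity : (0 : ℝ) ≤ ((z : ℝ) + 1) ^ r)]
      exact Real.sqrt_le_sqrt hr2
    have e2 : √(N : ℝ) ≤ N / ℓ ^ V := by
      rw [le_div_iff₀ (by positivity)]
      calc √(N : ℝ) * ℓ ^ V ≤ √(N : ℝ) * √(N : ℝ) := by gcongr
        _ = N := Real.mul_self_sqrt hNpos.le
    have e3 : (N : ℝ) / ℓ ^ V ≤ Y / ℓ ^ V := div_le_div_of_nonneg_right hNY (by positivity)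
    linarith
  have hexp : Real.exp (3 * (1 + Real.log z) - r) ≤ 1 / ℓ ^ V := by
    refine le_trans (le_of_eq ?_) hr1
    push_cast
    ring_nf
  have hY0 : (0 : ℝ) ≤ Y := Nat.cast_nonneg _
  have hsum : 2 * ((z : ℝ) + 1) ^ r + 2 * Y * Real.exp (3 * (1 + Real.log z) - r) ≤ 4 * (Y / ℓ ^ V) := by
    have e1 : 2 * (Y : ℝ) * Real.exp (3 * (1 + Real.log z) - r) ≤ 2 * Y * (1 / ℓ ^ V) :=
      mul_le_mul_of_nonneg_left hexp (by positivity)
    have e2 : 2 * (Y : ℝ) * (1 / ℓ ^ V) = 2 * (Y / ℓ ^ V) := by ring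
    linarith
  have hℓ0 : 0 < ℓ := by linarith
  calc (q : ℝ) * (z * (2 * ((z : ℝ) + 1) ^ r + 2 * Y * Real.exp (3 * (1 + Real.log z) - r)))
      ≤ ℓ ^ (B + 1) * (ℓ ^ (E + 1) * (4 * (Y / ℓ ^ V))) := by
        refine mul_le_mul hq1 ?_ (by positivity) (by positivity)
        exact mul_le_mul hz1 hsum (by positivity) (by positivity)
    _ = 4 / ℓ * (Y / ℓ ^ (U + 1)) := by
        rw [hV]
        have e1 : ℓ ^ (U + B + E + 4) = ℓ ^ (B + 1) * ℓ ^ (E + 1) * (ℓ * ℓ ^ (U + 1)) := by ring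
        rw [e1]
        field_simp
    _ ≤ 1 * (Y / ℓ ^ (U + 1)) := by
        refine mul_le_mul_of_nonneg_right ?_ (by positivity)
        rw [div_le_one hℓ0]
        exact hℓ4
    _ ≤ Y / L ^ U := by
        rw [one_mul]
        rcases eq_or_lt_of_le hL0 with h | h
        · rcases Nat.eq_zero_or_pos U with hU | hU
          · rw [hU, pow_zero, div_one]
            refine div_le_self hY0 ?_
            exact one_le_pow₀ (by linarith)
          · exfalso
            have e1 : Real.log x = 0 := by rw [← hL, ← h]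
            have hx1 : (1 : ℝ) < x := by
              by_contra hcon
              push Not at hcon
              have : s ≤ 1 := by
                rw [hsdef]
                exact Real.rpow_le_one hx0.le hcon (by norm_num)
              linarith
            have := Real.log_pos hx1
            linarith
        · exact div_le_div_of_nonneg_left hY0 (by positivity) hLU

end Pool.Agent.Q111.CR
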