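import Pool.Agent.Q111.CR.LUP

/-!
# Project CR, job PW: pointwise bounds on blocks
-/

set_option autoImplicit false

namespace Pool.Agent.Q111.CR

open Finset Filter
open Pool.Agent.Q236.CR
open Pool.Agent.Y306.VK (abel')

theorem nt_norm_le (t : ℝ) (n : ℕ) : ‖nt t n‖ ≤ 1 := by
  unfold nt
  rcases Nat.eq_zero_or_pos n with rfl | hn
  · by_cases h : (-(t : ℂ) * Complex.I) = 0
    · rw [h, Complex.cpow_zero, norm_one]
    · rw [Nat.cast_zero, Complex.zero_cpow h, norm_zero]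
      exact zero_le_one
  · rw [Complex.norm_natCast_cpow_of_pos hn]
    simp

theorem one_block {C : ℕ} {c C₂ : ℝ} {q : ℕ} {χ : DirichletCharacter ℂ q} (hZ : Ch C c C₂ χ) (hc : 0 < c)
    (hC₂ : 1 ≤ C₂) {L : ℝ} {B K m : ℕ} (hm : 1 ≤ m) (hL : 3 ≤ L) (hq : (q : ℝ) ≤ L ^ B) (h2 : 32 * C₂ ≤ L)
    (h3 : 4 * Real.exp (C * (1 + (m : ℝ)) ^ C) * L ^ (B + K) ≤ Real.exp (c / (m * (1 + (m : ℝ)) ^ 2) * L))
    {N v : ℕ} (hN2 : 2 ≤ N) (hNv : N ≤ v) (hv : v ≤ 2 * N) (hlN : L / m ≤ Real.log N) (hlN2 : Real.log N ≤ 3 * L)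
    {τ : ℝ} (hτ0 : L ^ (2 * (B + K + 3)) ≤ |τ|) (hτ : Real.log |τ| ≤ L) :
    ‖∑ n ∈ Ioc N v, χ (n : ZMod q) * nt τ n‖ ≤ N / (4 * L ^ K) := by
  have hm0 : (1 : ℝ) ≤ m := by exact_mod_cast hm
  have hNR : (2 : ℝ) ≤ N := by exact_mod_cast hN2
  have hN0 : (0 : ℝ) < N := by linarith
  have hτ1 : 1 ≤ |τ| := (one_le_pow₀ (by linarith)).trans hτ0
  have hτp : 0 < |τ| := by linarith
  have hlN0 : 0 < Real.log N := lt_of_lt_of_le (by positivity) hlN
  rcases le_or_gt |τ| (N : ℝ) with h | h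
  · refine (hZ.two N v τ (by omega) hNv hv hτ1).trans ?_
    have hst : 0 < √|τ| := Real.sqrt_pos.2 hτp
    have e1 : √|τ| ≤ N / √|τ| := by
      rw [le_div_iff₀ hst, Real.mul_self_sqrt hτp.le]
      exact h
    have e2 : L ^ (B + K + 3) ≤ √|τ| := by
      apply Real.le_sqrt_of_sq_le
      rw [← pow_mul, mul_comm]
      exact hτ0
    have e3 : (N : ℝ) / √|τ| ≤ N / L ^ (B + K + 3) :=
      div_le_div_of_nonneg_left hN0.le (by positivity) e2
    have e4 : (q : ℝ) * (C₂ * (√|τ| + N / √|τ|) * (1 + Real.log N)) ≤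
        L ^ B * (C₂ * (2 * (N / L ^ (B + K + 3))) * (4 * L)) := by
      refine mul_le_mul hq ?_ (by positivity) (by positivity)
      refine mul_le_mul (mul_le_mul_of_nonneg_left (by linarith) (by linarith)) (by linarith) (by linarith)
        (by positivity)
    refine e4.trans ?_
    rw [le_div_iff₀ (by positivity)]
    have e5 : L ^ B * (C₂ * (2 * (N / L ^ (B + K + 3))) * (4 * L)) * (4 * L ^ K) =
        (32 * C₂) / L ^ 2 * N := by
      rw [pow_add, pow_add]
      field_simp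
      ring
    rw [e5]
    have e6 : (32 * C₂) / L ^ 2 ≤ 1 := by
      rw [div_le_one (by positivity)]
      nlinarith
    nlinarith
  · set κ : ℝ := Real.log |τ| / Real.log N with hκ
    have hκm : κ * Real.log N = Real.log |τ| := by rw [hκ]; field_simp
    have hκ1 : 1 ≤ κ := by
      rw [hκ, le_div_iff₀ hlN0, one_mul]
      exact Real.log_le_log hN0 h.le
    have hκ2 : κ ≤ m := by
      rw [hκ, div_le_iff₀ hlN0]
      rw [div_le_iff₀ (by linarith)] at hlN
      linarith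
    have hτκ : |τ| = (N : ℝ) ^ κ := by
      rw [Real.rpow_def_of_pos hN0, mul_comm, hκm, Real.exp_log hτp]
    refine (hZ.one N v τ κ hN2 hNv hv hκ1 hτκ).trans ?_
    have f1 : Real.exp (C * (1 + κ) ^ C) ≤ Real.exp (C * (1 + (m : ℝ)) ^ C) := by
      refine Real.exp_le_exp.2 (mul_le_mul_of_nonneg_left ?_ (Nat.cast_nonneg C))
      exact pow_le_pow_left₀ (by linarith) (by linarith) C
    have f2 : (N : ℝ) ^ (1 - c / (1 + κ) ^ 2 : ℝ) ≤ N * Real.exp (-(c / (m * (1 + (m : ℝ)) ^ 2) * L)) := by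
      rw [sub_eq_add_neg, Real.rpow_add hN0, Real.rpow_one]
      refine mul_le_mul_of_nonneg_left ?_ hN0.le
      rw [Real.rpow_def_of_pos hN0]
      refine Real.exp_le_exp.2 ?_
      have g1 : c / (1 + (m : ℝ)) ^ 2 ≤ c / (1 + κ) ^ 2 := by
        refine div_le_div_of_nonneg_left hc.le (by positivity) ?_
        exact pow_le_pow_left₀ (by linarith) (by linarith) 2
      have g2 : c / (m * (1 + (m : ℝ)) ^ 2) * L = (L / m) * (c / (1 + (m : ℝ)) ^ 2) := by
        field_simp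
      have g3 : (L / m) * (c / (1 + (m : ℝ)) ^ 2) ≤ Real.log N * (c / (1 + κ) ^ 2) :=
        mul_le_mul hlN g1 (by positivity) hlN0.le
      rw [g2]
      linarith
    have f3 : (q : ℝ) * (Real.exp (C * (1 + κ) ^ C) * (N : ℝ) ^ (1 - c / (1 + κ) ^ 2 : ℝ)) ≤
        L ^ B * (Real.exp (C * (1 + (m : ℝ)) ^ C) * (N * Real.exp (-(c / (m * (1 + (m : ℝ)) ^ 2) * L)))) := by
      refine mul_le_mul hq ?_ (by positivity) (by positivity)
      exact mul_le_mul f1 f2 (by positivity) (by positivity)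
    refine f3.trans ?_
    rw [le_div_iff₀ (by positivity), Real.exp_neg]
    set E := Real.exp (c / (m * (1 + (m : ℝ)) ^ 2) * L) with hE
    have hE0 : 0 < E := Real.exp_pos _
    have f4 : L ^ B * (Real.exp (C * (1 + (m : ℝ)) ^ C) * (N * E⁻¹)) * (4 * L ^ K) =
        (4 * Real.exp (C * (1 + (m : ℝ)) ^ C) * L ^ (B + K)) / E * N := by
      rw [pow_add]
      field_simp
    rw [f4]
    have f5 : (4 * Real.exp (C * (1 + (m : ℝ)) ^ C) * L ^ (B + K)) / E ≤ 1 := by
      rw [div_le_one hE0]; exact h3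
    nlinarith

/-- the weight `log` -/
theorem log_weight {z : ℕ → ℂ} {u v : ℕ} {D : ℝ} (huv : u ≤ v)
    (hD : ∀ k, u ≤ k → k ≤ v → ‖∑ n ∈ Ioc u k, z n‖ ≤ D) :
    ‖∑ n ∈ Ioc u v, (Real.log n : ℂ) * z n‖ ≤ 2 * Real.log v * D := by
  have hmono : ∀ n : ℕ, Real.log n ≤ Real.log ((n + 1 : ℕ) : ℝ) := by
    intro n
    rcases Nat.eq_zero_or_pos n with rfl | hn
    · simp
    · exact Real.log_le_log (by exact_mod_cast hn) (by push_cast; linarith)
  have h1 := abel' (a := fun n : ℕ => Real.log v - Real.log n) (z := z) (B := D) huv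
    (fun n _ => by have := hmono n; linarith) (by simp) hD
  have h2 : ∑ n ∈ Ioc u v, (Real.log n : ℂ) * z n =
      (Real.log v : ℂ) * ∑ n ∈ Ioc u v, z n - ∑ n ∈ Ioc u v, ((Real.log v - Real.log n : ℝ) : ℂ) * z n := by
    rw [mul_sum, ← sum_sub_distrib]
    refine sum_congr rfl fun n _ => ?_
    push_cast
    ring
  have hD0 : 0 ≤ D := (norm_nonneg _).trans (hD v huv le_rfl)
  have hv0 : 0 ≤ Real.log v := Real.log_natCast_nonneg v
  have hu0 : 0 ≤ Real.log u := Real.log_natCast_nonneg u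
  have h3 : ‖(Real.log v : ℂ) * ∑ n ∈ Ioc u v, z n‖ ≤ Real.log v * D := by
    rw [norm_mul, Complex.norm_real, Real.norm_of_nonneg hv0]
    exact mul_le_mul_of_nonneg_left (hD v huv le_rfl) hv0
  rw [h2]
  refine (norm_sub_le _ _).trans ?_
  have h4 : (Real.log v - Real.log u) * D ≤ Real.log v * D := mul_le_mul_of_nonneg_right (by linarith) hD0
  linarith

theorem ev_pow_exp (a b : ℝ) (hb : 0 < b) (k : ℕ) : ∀ᶠ L : ℝ in atTop, a * L ^ k ≤ Real.exp (b * L) := by
  have h1 : ∀ᶠ L : ℝ in atTop, ‖L ^ k‖ ≤ (1 / (|a| + 1)) * ‖Real.exp (b * L)‖ :=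
    (isLittleO_pow_exp_pos_mul_atTop k hb).bound (by positivity)
  filter_upwards [h1, eventually_ge_atTop 0] with L h1 h2
  rw [Real.norm_of_nonneg (by positivity), Real.norm_of_nonneg (Real.exp_pos _).le] at h1
  have h3 : a * L ^ k ≤ |a| * L ^ k := mul_le_mul_of_nonneg_right (le_abs_self a) (by positivity)
  have h4 : |a| * L ^ k ≤ (|a| + 1) * (1 / (|a| + 1) * Real.exp (b * L)) :=
    mul_le_mul (by linarith) h1 (by positivity) (by positivity)
  have h5 : (|a| + 1) * (1 / (|a| + 1) * Real.exp (b * L)) = Real.exp (b * L) := by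
    have : |a| + 1 ≠ 0 := by positivity
    field_simp
  linarith

/-- **PW** -/
theorem pw : S_CHR → S_MOC → S_PW := by
  rintro ⟨⟨C, c, hc, _, hone⟩, ⟨C₂, hC₂, htwo⟩⟩ hmoc B K m hm
  obtain ⟨C₀', C', hM⟩ := hmoc (2 * m) (B + 1) (K + 1)
  have hmR : (1 : ℝ) ≤ m := by exact_mod_cast hm
  -- large L
  have hev : ∀ᶠ L : ℝ in atTop, 6 ≤ L ∧ 32 * C₂ ≤ L ∧
      (4 * Real.exp (C * (1 + (m : ℝ)) ^ C) * L ^ (B + (K + 2)) ≤ Real.exp (c / (m * (1 + (m : ℝ)) ^ 2) * L)) ∧
      2 * L ^ (K + 2) ≤ Real.exp (1 / m * L) ∧ (2 * (m : ℝ)) ^ B * (2 * m) ≤ L ∧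
      4 * |C'| * (2 * m) ^ (K + 1) ≤ L := by
    filter_upwards [eventually_ge_atTop 6, eventually_ge_atTop (32 * C₂),
      ev_pow_exp (4 * Real.exp (C * (1 + (m : ℝ)) ^ C)) (c / (m * (1 + (m : ℝ)) ^ 2)) (by positivity) (B + (K + 2)),
      ev_pow_exp 2 (1 / m) (by positivity) (K + 2), eventually_ge_atTop ((2 * (m : ℝ)) ^ B * (2 * m)),
      eventually_ge_atTop (4 * |C'| * (2 * m) ^ (K + 1))] with L h1 h2 h3 h4 h5 h6
    exact ⟨h1, h2, h3, h4, h5, h6⟩
  obtain ⟨L₀, hL₀⟩ := eventually_atTop.1 hev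
  refine ⟨2 * (B + (K + 2) + 3) + 2 * C₀', ⌈Real.exp L₀⌉₊ + 1, ?_⟩
  intro X hX q hqz hq χ M u v hXM hMu hvM hMX τ hτ0 hτX
  have hXexp : Real.exp L₀ ≤ X := by
    have : (⌈Real.exp L₀⌉₊ : ℝ) + 1 ≤ X := by exact_mod_cast hX
    have h2 := Nat.le_ceil (Real.exp L₀)
    linarith
  have hX0 : (0 : ℝ) < X := (Real.exp_pos _).trans_le hXexp
  set L : ℝ := Real.log X with hLdef
  have hLL : L₀ ≤ L := by
    rw [hLdef, ← Real.log_exp L₀]
    exact Real.log_le_log (Real.exp_pos _) hXexp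
  obtain ⟨g1, g2, g3, g4, g5, g6⟩ := hL₀ L hLL
  have hL0 : 0 < L := by linarith
  have hL1 : 1 ≤ L := by linarith
  have hM0 : (0 : ℝ) < M := by
    rcases Nat.eq_zero_or_pos M with rfl | h
    · rw [Nat.cast_zero, zero_pow (by omega)] at hXM
      linarith
    · exact_mod_cast h
  have hlogM : L / m ≤ Real.log M := by
    have := Real.log_le_log hX0 hXM
    rw [Real.log_pow] at this
    rw [div_le_iff₀ (by linarith)]
    linarith
  have hMexp : Real.exp (1 / m * L) ≤ M := by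
    rw [← Real.exp_log hM0]
    refine Real.exp_le_exp.2 ?_
    rw [one_div_mul_eq_div]
    exact hlogM
  have hMbig : 2 * L ^ (K + 2) ≤ M := g4.trans hMexp
  have hLK : 36 ≤ L ^ (K + 2) := by
    have e1 : L ^ 2 ≤ L ^ (K + 2) := pow_le_pow_right₀ hL1 (by omega)
    nlinarith
  have hMR72 : (72 : ℝ) ≤ M := by linarith
  have hM72 : 72 ≤ M := by exact_mod_cast hMR72
  have hlog2M : ∀ n : ℕ, 1 ≤ n → n ≤ 2 * M → Real.log n ≤ 3 * L := by
    intro n hn1 hn
    have hn0 : (0 : ℝ) < n := by exact_mod_cast hn1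
    have e1 : (n : ℝ) ≤ 2 * (X : ℝ) ^ 2 := by
      have : n ≤ 2 * X ^ 2 := by nlinarith
      exact_mod_cast this
    refine (Real.log_le_log hn0 e1).trans ?_
    rw [Real.log_mul (by norm_num) (by positivity), Real.log_pow]
    have := Real.log_two_lt_d9
    push_cast
    linarith
  have hτ1 : 1 ≤ |τ| := (one_le_pow₀ hL1).trans hτ0
  have hlτ : Real.log |τ| ≤ L := Real.log_le_log (by linarith) hτX
  have hτ2 : L ^ (2 * (B + (K + 2) + 3)) ≤ |τ| := (pow_le_pow_right₀ hL1 (by omega)).trans hτ0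
  have hτ3 : L ^ (2 * C₀') ≤ |τ| := (pow_le_pow_right₀ hL1 (by omega)).trans hτ0
  -- the second part, with a better exponent
  have hsecond : ∀ k : ℕ, k ≤ 2 * M → ‖∑ n ∈ Ioc u k, χ (n : ZMod q) * nt τ n‖ ≤ M / L ^ (K + 2) := by
    intro k hk
    rcases le_or_gt k u with hku | hku
    · rw [Finset.Ioc_eq_empty (by omega), sum_empty, norm_zero]
      positivity
    have hblock : ∀ N : ℕ, M ≤ N → N ≤ k → ‖∑ n ∈ Ioc N k, χ (n : ZMod q) * nt τ n‖ ≤ N / (4 * L ^ (K + 2)) := by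
      intro N hN1 hN2
      refine one_block ⟨hone q hqz χ, htwo q hqz χ⟩ hc hC₂ hm (by linarith) hq g2 g3 (by omega) hN2 (by omega)
        (hlogM.trans (Real.log_le_log hM0 (by exact_mod_cast hN1))) (hlog2M N (by omega) (by omega)) hτ2 hlτ
    rcases Nat.lt_or_ge u M with hu | hu
    · have hu' : u + 1 = M := by omega
      have e1 : ∑ n ∈ Ioc u k, χ (n : ZMod q) * nt τ n =
          χ (M : ZMod q) * nt τ M + ∑ n ∈ Ioc M k, χ (n : ZMod q) * nt τ n := by
        rw [← Finset.sum_Ioc_consecutive _ (show u ≤ M by omega) (show M ≤ k by omega)]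
        congr 1
        rw [← hu', Nat.Ioc_succ_singleton, sum_singleton]
      rw [e1]
      have e2 : ‖χ (M : ZMod q) * nt τ M‖ ≤ 1 := by
        rw [norm_mul]
        exact mul_le_one₀ (DirichletCharacter.norm_le_one χ _) (norm_nonneg _) (nt_norm_le _ _)
      have e3 := hblock M le_rfl (by omega)
      refine (norm_add_le _ _).trans ?_
      have e4 : 1 ≤ (M : ℝ) / (2 * L ^ (K + 2)) := by
        rw [le_div_iff₀ (by positivity)]
        linarith
      have e5 : (M : ℝ) / L ^ (K + 2) = M / (2 * L ^ (K + 2)) + 2 * (M / (4 * L ^ (K + 2))) := by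
        field_simp
        norm_num
      have e6 : 0 ≤ (M : ℝ) / (4 * L ^ (K + 2)) := by positivity
      linarith
    · refine (hblock u hu hku.le).trans ?_
      have e1 : (u : ℝ) ≤ 2 * M := by exact_mod_cast (by omega : u ≤ 2 * M)
      rw [div_le_div_iff₀ (by positivity) (by positivity)]
      have e2 : 0 < L ^ (K + 2) := by positivity
      nlinarith
  have hpowK : (M : ℝ) / L ^ (K + 2) ≤ M / L ^ K :=
    div_le_div_of_nonneg_left hM0.le (by positivity) (pow_le_pow_right₀ hL1 (by omega))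
  rcases le_or_gt v u with hvu | hvu
  · rw [Finset.Ioc_eq_empty (by omega), sum_empty, sum_empty, sum_empty, norm_zero]
    have : 0 ≤ (M : ℝ) / L ^ K := by positivity
    exact ⟨this, this, this⟩
  refine ⟨?_, (hsecond v hvM).trans hpowK, ?_⟩
  · -- Moebius
    have hmo : ∀ N : ℕ, M ≤ N + 1 → N ≤ 2 * M →
        ‖∑ n ∈ Icc 1 N, ((ArithmeticFunction.moebius n : ℤ) : ℂ) * (χ (n : ZMod q) * nt τ n)‖ ≤
          M / (2 * L ^ K) := by
      intro N hN1 hN2
      have hNR : (M : ℝ) ≤ N + 1 := by exact_mod_cast hN1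
      have hN2' : 2 ≤ N := by omega
      have hN0 : (0 : ℝ) < N := by exact_mod_cast (by omega : 0 < N)
      have hlN : L / (2 * m) ≤ Real.log N := by
        have e1 : (M : ℝ) ≤ (N : ℝ) ^ 2 := by nlinarith
        have e2 := Real.log_le_log hM0 e1
        rw [Real.log_pow] at e2
        push_cast at e2
        have e3 : L / (2 * m) = (L / m) / 2 := by field_simp
        rw [e3]
        linarith
      have hlN' : L ≤ 2 * m * Real.log N := by
        rw [div_le_iff₀ (by positivity)] at hlN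
        linarith
      have hlN0 : 0 < Real.log N := lt_of_lt_of_le (by positivity) hlN
      have hlN3 := hlog2M N (by omega) hN2
      have c1 : (q : ℝ) ≤ Real.log N ^ (B + 1) := by
        have e1 : L ^ B ≤ (2 * m * Real.log N) ^ B := pow_le_pow_left₀ hL0.le hlN' B
        rw [mul_pow] at e1
        have e2 : (2 * (m : ℝ)) ^ B ≤ Real.log N := by
          have : (2 * (m : ℝ)) ^ B ≤ L / (2 * m) := by
            rw [le_div_iff₀ (by positivity)]
            exact g5
          linarith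
        have e3 : (2 * (m : ℝ)) ^ B * Real.log N ^ B ≤ Real.log N * Real.log N ^ B :=
          mul_le_mul_of_nonneg_right e2 (by positivity)
        rw [pow_succ]
        linarith
      have c2 : Real.log N ^ C₀' ≤ |τ| := by
        refine le_trans ?_ hτ3
        rw [pow_mul]
        refine pow_le_pow_left₀ hlN0.le ?_ _
        nlinarith
      have c3 : |τ| ≤ (N : ℝ) ^ (2 * m) := by
        refine hτX.trans (hXM.trans ?_)
        rw [pow_mul]
        refine pow_le_pow_left₀ hM0.le ?_ m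
        nlinarith
      have h := hM N q hqz χ τ hN2' c1 c2 c3
      refine h.trans ?_
      have d1 : C' * N / Real.log N ^ (K + 1) ≤ |C'| * (2 * M) / (L / (2 * m)) ^ (K + 1) := by
        have f1 : C' * N ≤ |C'| * (2 * M) := by
          have f2 : (N : ℝ) ≤ 2 * M := by exact_mod_cast hN2
          calc C' * N ≤ |C'| * N := mul_le_mul_of_nonneg_right (le_abs_self _) hN0.le
            _ ≤ |C'| * (2 * M) := mul_le_mul_of_nonneg_left f2 (abs_nonneg _)
        refine div_le_div₀ (by positivity) f1 (by positivity) ?_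
        exact pow_le_pow_left₀ (by positivity) hlN _
      refine d1.trans ?_
      rw [div_pow, div_div_eq_mul_div, div_le_div_iff₀ (by positivity) (by positivity)]
      have d2 : |C'| * (2 * (M : ℝ)) * (2 * m) ^ (K + 1) * (2 * L ^ K) = M * ((4 * |C'| * (2 * m) ^ (K + 1)) * L ^ K) := by
        ring
      have d3 : (M : ℝ) * L ^ (K + 1) = M * (L * L ^ K) := by ring
      rw [d2, d3]
      refine mul_le_mul_of_nonneg_left ?_ hM0.le
      exact mul_le_mul_of_nonneg_right g6 (by positivity)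
    have e1 : ∑ n ∈ Ioc u v, (χ (n : ZMod q) * ((ArithmeticFunction.moebius n : ℤ) : ℂ)) * nt τ n =
        ∑ n ∈ Icc 1 v, ((ArithmeticFunction.moebius n : ℤ) : ℂ) * (χ (n : ZMod q) * nt τ n) -
          ∑ n ∈ Icc 1 u, ((ArithmeticFunction.moebius n : ℤ) : ℂ) * (χ (n : ZMod q) * nt τ n) := by
      have hI : ∀ k : ℕ, Icc 1 k = Ioc 0 k := by
        intro k; ext n; simp only [mem_Icc, mem_Ioc]; omega
      rw [hI, hI, ← Finset.sum_Ioc_consecutive _ (Nat.zero_le u) hvu.le, add_sub_cancel_left]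
      refine sum_congr rfl fun n _ => ?_
      ring
    rw [e1]
    refine (norm_sub_le _ _).trans ?_
    have h1 := hmo v (by omega) hvM
    have h2 := hmo u hMu (by omega)
    have h3 : (M : ℝ) / L ^ K = 2 * (M / (2 * L ^ K)) := by field_simp
    linarith
  · -- weight log
    have h1 := log_weight (z := fun n : ℕ => χ (n : ZMod q) * nt τ n) hvu.le
      (fun k _ hk => hsecond k (hk.trans hvM))
    have e1 : ∑ n ∈ Ioc u v, (χ (n : ZMod q) * (Real.log n : ℂ)) * nt τ n =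
        ∑ n ∈ Ioc u v, (Real.log n : ℂ) * (χ (n : ZMod q) * nt τ n) :=
      sum_congr rfl fun n _ => by ring
    rw [e1]
    refine h1.trans ?_
    have h2 := hlog2M v (by omega) hvM
    have h3 : 2 * Real.log v * (M / L ^ (K + 2)) ≤ 2 * (3 * L) * (M / L ^ (K + 2)) := by
      refine mul_le_mul_of_nonneg_right (by linarith) (by positivity)
    refine h3.trans ?_
    rw [mul_div_assoc', div_le_div_iff₀ (by positivity) (by positivity)]
    have h4 : 2 * (3 * L) * (M : ℝ) * L ^ K = M * (L ^ K * L * 6) := by ring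
    have h5 : (M : ℝ) * L ^ (K + 2) = M * (L ^ K * L * L) := by ring
    rw [h4, h5]
    refine mul_le_mul_of_nonneg_left ?_ hM0.le
    exact mul_le_mul_of_nonneg_left g1 (by positivity)

end Pool.Agent.Q111.CR
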