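import Pool.Agent.H370R2.DirGood
import Pool.Agent.Q236.CR.Stm

/-!
# Project CR, job LUP, part 1: truncation of the series of `L(s, χ)`
-/

set_option autoImplicit false

namespace Pool.Agent.Q111.CR

open Finset Filter MeasureTheory

theorem integral_tail {A : ℝ → ℂ} {K : ℝ} (hA : ∀ u, ‖A u‖ ≤ K) {s : ℂ} (hs : 0 < s.re) {X : ℝ} (hX : 0 < X) :
    ‖∫ u in Set.Ioi X, A u * (u : ℂ) ^ (-s - 1)‖ ≤ K * (X ^ (-s.re) / s.re) := by
  have h1 : ∫ u in Set.Ioi X, K * u ^ (-s.re - 1) = K * (X ^ (-s.re) / s.re) := by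
    rw [integral_const_mul, integral_Ioi_rpow_of_lt (by linarith) hX]
    have e1 : -s.re - 1 + 1 = -s.re := by ring
    rw [e1, neg_div_neg_eq]
  rw [← h1]
  refine norm_integral_le_of_norm_le ?_ ?_
  · exact (integrableOn_Ioi_rpow_of_lt (by linarith) hX).const_mul K
  · refine (ae_restrict_iff' measurableSet_Ioi).mpr (Filter.Eventually.of_forall fun u hu => ?_)
    have hu0 : (0 : ℝ) < u := lt_trans hX hu
    rw [norm_mul, Complex.norm_cpow_eq_rpow_re_of_pos hu0]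
    have : (-s - 1).re = -s.re - 1 := by simp
    rw [this]
    exact mul_le_mul_of_nonneg_right (hA u) (by positivity)

theorem truncation {q : ℕ} [NeZero q] {χ : DirichletCharacter ℂ q} (hχ : χ ≠ 1) {s : ℂ} (hs : 0 < s.re) {X : ℕ}
    (hX : 1 ≤ X) :
    ‖DirichletCharacter.LFunction χ s - ∑ n ∈ Ioc 0 X, χ (n : ZMod q) * (n : ℂ) ^ (-s)‖ ≤
      (q + 1) * (X : ℝ) ^ (-s.re) * (1 + ‖s‖ / s.re) := by
  have hX0 : (0 : ℝ) < X := by exact_mod_cast hX
  have hq0 : χ ((0 : ℕ) : ZMod q) = 0 := by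
    have hq1 : q ≠ 1 := by
      rintro rfl
      apply hχ
      exact Subsingleton.elim _ _
    rw [Nat.cast_zero]
    have : Nontrivial (ZMod q) := by
      rw [ZMod.nontrivial_iff]; exact hq1
    exact MulChar.map_zero χ
  set A : ℝ → ℂ := fun u => ∑ k ∈ Finset.Icc 1 ⌊u⌋₊, χ (k : ZMod q) with hA
  have hbd : ∀ u, ‖A u‖ ≤ (q + 1 : ℝ) := by
    intro u
    exact H370.DL.norm_sum_Icc_le hχ _
  have hA0 : ∀ u : ℝ, ∑ k ∈ Finset.Icc 0 ⌊u⌋₊, χ (k : ZMod q) = A u := by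
    intro u
    have h1 : Finset.Icc 0 ⌊u⌋₊ = insert 0 (Finset.Icc 1 ⌊u⌋₊) := by
      ext k
      simp only [Finset.mem_Icc, Finset.mem_insert]
      omega
    rw [h1, Finset.sum_insert (by simp), hq0, zero_add]
  have hm : Measurable A := (measurable_from_nat
    (f := fun n : ℕ => ∑ k ∈ Finset.Icc 1 n, χ (k : ZMod q))).comp Nat.measurable_floor
  have hs0 : s ≠ 0 := by rintro rfl; simp at hs
  have hder : ∀ t : ℝ, 0 < t → HasDerivAt (fun t : ℝ => (t : ℂ) ^ (-s)) (-s * (t : ℂ) ^ (-s - 1)) t := by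
    intro t ht
    exact hasDerivAt_ofReal_cpow_const (x := t) ht.ne' (r := -s) (neg_ne_zero.2 hs0)
  have hdiff : ∀ t ∈ Set.Icc (1 : ℝ) X, DifferentiableAt ℝ (fun t : ℝ => (t : ℂ) ^ (-s)) t := fun t ht =>
    (hder t (by linarith [ht.1])).differentiableAt
  have hderiv : ∀ t ∈ Set.Icc (1 : ℝ) X, deriv (fun t : ℝ => (t : ℂ) ^ (-s)) t = -s * (t : ℂ) ^ (-s - 1) :=
    fun t ht => (hder t (by linarith [ht.1])).deriv
  have hcont : ContinuousOn (fun t : ℝ => -s * (t : ℂ) ^ (-s - 1)) (Set.Icc (1 : ℝ) X) := by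
    refine ContinuousOn.mul continuousOn_const ?_
    intro t ht
    exact (Complex.continuousAt_ofReal_cpow_const t (-s - 1) (Or.inr (by linarith [ht.1]))).continuousWithinAt
  have hint : IntegrableOn (deriv (fun t : ℝ => (t : ℂ) ^ (-s))) (Set.Icc (1 : ℝ) X) :=
    (hcont.integrableOn_Icc).congr_fun (fun t ht => (hderiv t ht).symm) measurableSet_Icc
  have habel := sum_mul_eq_sub_integral_mul₀ (c := fun n : ℕ => χ (n : ZMod q)) hq0 (X : ℝ) hdiff hint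
  rw [Nat.floor_natCast] at habel
  have hA0' : ∑ k ∈ Finset.Icc 0 X, χ (k : ZMod q) = A X := by
    have := hA0 (X : ℝ)
    rwa [Nat.floor_natCast] at this
  rw [hA0'] at habel
  have e1 : ∑ k ∈ Finset.Icc 0 X, (((k : ℝ) : ℂ)) ^ (-s) * χ (k : ZMod q) =
      ∑ n ∈ Ioc 0 X, χ (n : ZMod q) * (n : ℂ) ^ (-s) := by
    have h1 : Finset.Icc 0 X = insert 0 (Finset.Ioc 0 X) := by
      ext k
      simp only [Finset.mem_Icc, Finset.mem_insert, Finset.mem_Ioc]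
      omega
    rw [h1, Finset.sum_insert (by simp), hq0, mul_zero, zero_add]
    refine sum_congr rfl fun n _ => ?_
    push_cast
    ring
  have e2 : ∫ t in Set.Ioc (1 : ℝ) X, deriv (fun t : ℝ => (t : ℂ) ^ (-s)) t * ∑ k ∈ Finset.Icc 0 ⌊t⌋₊, χ (k : ZMod q) =
      -s * ∫ t in Set.Ioc (1 : ℝ) X, A t * (t : ℂ) ^ (-s - 1) := by
    rw [← integral_const_mul]
    refine setIntegral_congr_fun measurableSet_Ioc fun t ht => ?_
    rw [hderiv t ⟨ht.1.le, ht.2⟩, hA0 t]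
    ring
  have habel' : ∑ n ∈ Ioc 0 X, χ (n : ZMod q) * (n : ℂ) ^ (-s) =
      (X : ℂ) ^ (-s) * A X + s * ∫ t in Set.Ioc (1 : ℝ) X, A t * (t : ℂ) ^ (-s - 1) := by
    rw [← e1]
    have h2 := habel
    rw [e2] at h2
    rw [h2]
    push_cast
    ring
  have hL := H370.DL.L_integral hχ hs
  have hInt : IntegrableOn (fun u : ℝ => A u * (u : ℂ) ^ (-s - 1)) (Set.Ioi (1 : ℝ)) := by
    have h1 : IntegrableOn (fun u : ℝ => ((q : ℝ) + 1) * u ^ (-s.re - 1)) (Set.Ioi (1 : ℝ)) :=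
      (integrableOn_Ioi_rpow_of_lt (by linarith) zero_lt_one).const_mul _
    refine Integrable.mono' h1 ?_ ?_
    · refine (hm.aestronglyMeasurable).mul ?_
      refine ContinuousOn.aestronglyMeasurable ?_ measurableSet_Ioi
      intro t ht
      exact (Complex.continuousAt_ofReal_cpow_const t (-s - 1)
        (Or.inr (lt_trans zero_lt_one ht).ne')).continuousWithinAt
    · refine (ae_restrict_iff' measurableSet_Ioi).mpr (Filter.Eventually.of_forall fun u hu => ?_)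
      have hu0 : (0 : ℝ) < u := lt_trans zero_lt_one hu
      rw [norm_mul, Complex.norm_cpow_eq_rpow_re_of_pos hu0]
      have : (-s - 1).re = -s.re - 1 := by simp
      rw [this]
      exact mul_le_mul_of_nonneg_right (hbd u) (by positivity)
  have hX1 : (1 : ℝ) ≤ X := by exact_mod_cast hX
  have hsplit : ∫ u in Set.Ioi (1 : ℝ), A u * (u : ℂ) ^ (-s - 1) =
      (∫ u in Set.Ioc (1 : ℝ) X, A u * (u : ℂ) ^ (-s - 1)) + ∫ u in Set.Ioi (X : ℝ), A u * (u : ℂ) ^ (-s - 1) := by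
    rw [← setIntegral_union (Set.Ioc_disjoint_Ioi le_rfl) measurableSet_Ioi
      (hInt.mono_set Set.Ioc_subset_Ioi_self) (hInt.mono_set (Set.Ioi_subset_Ioi hX1)),
      Set.Ioc_union_Ioi_eq_Ioi hX1]
  have hfin : DirichletCharacter.LFunction χ s - ∑ n ∈ Ioc 0 X, χ (n : ZMod q) * (n : ℂ) ^ (-s) =
      s * (∫ u in Set.Ioi (X : ℝ), A u * (u : ℂ) ^ (-s - 1)) - (X : ℂ) ^ (-s) * A X := by
    rw [hL, habel', hsplit]
    ring
  rw [hfin]
  have t1 := integral_tail hbd hs hX0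
  have t2 : ‖(X : ℂ) ^ (-s)‖ = (X : ℝ) ^ (-s.re) := by
    rw [Complex.norm_natCast_cpow_of_pos (by omega)]
    simp
  refine (norm_sub_le _ _).trans ?_
  rw [norm_mul, norm_mul, t2]
  have t3 : ‖s‖ * ‖∫ u in Set.Ioi (X : ℝ), A u * (u : ℂ) ^ (-s - 1)‖ ≤
      ‖s‖ * ((q + 1) * ((X : ℝ) ^ (-s.re) / s.re)) := mul_le_mul_of_nonneg_left t1 (norm_nonneg _)
  have t4 : (X : ℝ) ^ (-s.re) * ‖A X‖ ≤ (X : ℝ) ^ (-s.re) * (q + 1) :=
    mul_le_mul_of_nonneg_left (hbd _) (by positivity)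
  have t5 : ((q : ℝ) + 1) * (X : ℝ) ^ (-s.re) * (1 + ‖s‖ / s.re) =
      ‖s‖ * ((q + 1) * ((X : ℝ) ^ (-s.re) / s.re)) + (X : ℝ) ^ (-s.re) * (q + 1) := by
    field_simp
    ring
  rw [t5]
  exact add_le_add t3 t4

end Pool.Agent.Q111.CR
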